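import Pool.Agent.Helper10.FF.H3

/-!
# Project FF, block P2J: the constants, for almost all `j` (from BE and THR)
-/

set_option autoImplicit false
set_option linter.unusedSectionVars false

namespace Pool.Agent.FFX

open Polynomial Pool.Agent.LT Pool.Agent.SC Pool.Agent.Helper37.UL UL Pool.Agent.OPN Pool.Agent.OPG _root_.TW Pool.Agent.TWT

variable {E C : Type} [Field E] [IsAlgClosed E] [CharZero E] [Field C] [IsAlgClosed C] [Algebra E C]
    {A : Subfield C} {T q : C} {m : ℕ} {J : Type} {U : Ultrafilter J} {S : Type} [Field S]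
    {π : (J → C) →+* S} {h : UP U π} {a : J → Fin (m + 2) → E} {Fv : J → Subfield C}
    {u : Fin (m + 2) → C}

/-- Constants which are fixed by the decomposition groups of the zeros lie in the residue fields. -/
theorem Zero.mem_res {W : J → ValuationSubring C} {lam : ∀ j, W j →+* E}
    {ι : acl (ad A {T}) →+* S} (hs : Setup E A T q h a Fv u) (hz : Zero E A T h a u W lam ι)
    {c : J → E} (hbad : ∀ᶠ j in (U : Filter J), ∀ W : ValuationSubring C, IsZ E (gv a u j) W →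
      ∀ γ : C ≃+* C, Dec (ad (Fv j) {T, q}) W γ → γ (algebraMap E C (c j)) = algebraMap E C (c j)) :
    ∀ᶠ j in (U : Filter J), algebraMap E C (c j) ∈ ad (Fv j) {lc W lam T j, lc W lam q j} := by
  have hC0 := hs.charC
  have hA0 : CharZero A := inferInstance
  have hTA : Transcendental A T := hs.sd.tr
  obtain ⟨G, hG, hG'⟩ := exists_eqn (F := A) (θ := q) hTA (alg_adjoin_iff.2 hs.hq)
  have hACs : A ≤ acl (ad A {T}) := le_ad.trans le_acl
  have hG'C : ev2 A T q (derivative G) ∈ acl (ad A {T}) := ev2_mem hACs hs.hTC hs.hqC _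
  filter_upwards [hbad, hz.hv, hz.simple hs, hz.mem hs hs.hTC, hz.mem hs hs.hqC,
    hz.unit hs hG'C hG'] with j k1 k2 k3 k4 k5 k6
  obtain ⟨τ, hb, -⟩ := k3
  have hτ : lam j ⟨T, k4⟩ = τ :=
    lam_eq (hz.hE j) (hz.hlam j) (hz.hlam0 j) (z := ⟨T, k4⟩) (((W j).mem_nonunits_iff).1 hb.t_mem)
  by_contra hcon
  rw [lc_of_mem k4, lc_of_mem k5, hτ] at hcon
  have hbW : algebraMap E C (c j) ∈ W j := hz.hE j _
  obtain ⟨γ, h1, h2, h3⟩ := exists_gammaS hb hs.hT hs.halg (hz.hlam j) (hz.hlam0 j) hG k6 k5 hbW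
    (hs.hAFv j) (hs.hFv j) (by rw [hz.hlam j]; exact hcon)
  exact h3 (k1 (W j) ⟨hz.hE j, k2⟩ γ ⟨h1, h2⟩)

/-- **Block P2J.** -/
theorem p2j (hBE : StmtBE) (hTHR : StmtTHR) : StmtP2J := by
  intro E C _ _ _ _ _ _ A T q m J U S _ π h a Fv u hs hreg e he
  classical
  by_contra hcon
  rw [← Ultrafilter.eventually_not] at hcon
  have hC0 := hs.charC
  have hSa : IsAlgClosed S := h.isAlgClosed
  -- the bad constants
  have h1 : ∀ j, ∃ c : E, (¬ ∀ c : E, (∀ W : ValuationSubring C, IsZ E (gv a u j) W →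
      ∀ γ : C ≃+* C, Dec (ad (Fv j) {T, q}) W γ → γ (algebraMap E C c) = algebraMap E C c) →
      algebraMap E C c ∈ Fv j) → (∀ W : ValuationSubring C, IsZ E (gv a u j) W →
      ∀ γ : C ≃+* C, Dec (ad (Fv j) {T, q}) W γ → γ (algebraMap E C c) = algebraMap E C c) ∧
      algebraMap E C c ∉ Fv j := by
    intro j
    by_cases hj : ∀ c : E, (∀ W : ValuationSubring C, IsZ E (gv a u j) W →
      ∀ γ : C ≃+* C, Dec (ad (Fv j) {T, q}) W γ → γ (algebraMap E C c) = algebraMap E C c) →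
      algebraMap E C c ∈ Fv j
    · exact ⟨0, fun h0 => absurd hj h0⟩
    · rw [not_forall] at hj
      obtain ⟨c, hc⟩ := hj
      rw [Classical.not_imp] at hc
      exact ⟨c, fun _ => hc⟩
  choose c hc using h1
  have hbad : ∀ᶠ j in (U : Filter J), ∀ W : ValuationSubring C, IsZ E (gv a u j) W →
      ∀ γ : C ≃+* C, Dec (ad (Fv j) {T, q}) W γ → γ (algebraMap E C (c j)) = algebraMap E C (c j) :=
    hcon.mono fun j hj => (hc j hj).1
  -- three independent zeros
  obtain ⟨W, lam, ι, hz, hind⟩ := hTHR h hs e he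
  have h2 : ∀ i, π (fun j => algebraMap E C (c j)) ∈
      ad (h.fsub Fv) {ι i ⟨T, hs.hTC⟩, ι i ⟨q, hs.hqC⟩} := by
    intro i
    have h3 := (hz i).mem_res hs hbad
    have e1 : ι i ⟨T, hs.hTC⟩ = π (lc (W i) (lam i) T) := (hz i).hι _
    have e2 : ι i ⟨q, hs.hqC⟩ = π (lc (W i) (lam i) q) := (hz i).hι _
    rw [e1, e2]
    refine fsub_ad2 h ?_ ?_ ?_
    · rw [← e1]
      exact (hz i).alg hs _
    · rw [← e2]
      exact isAlgebraic_mono le_ad ((hz i).alg hs _)
    · exact (h.coe_mem_fsub (X := fun j => ad (Fv j) {lc (W i) (lam i) T j, lc (W i) (lam i) q j})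
        fun j => algebraMap E C (c j)).2 h3
  have h3 := hBE (UP.cst π) hs.sd hreg hs.hTC hs.hqC ι (fun i => (hz i).sz hs)
    (fun i i' hii => hind hs.hTC i i' hii) _ h2
  have h4 := (h.coe_mem_fsub (X := Fv) fun j => algebraMap E C (c j)).1 h3
  obtain ⟨j, hj1, hj2⟩ := (h4.and hcon).exists
  exact (hc j hj2).2 hj1

end Pool.Agent.FFX
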