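import Pool.Agent.Helper10.FF.H3
import Pool.Agent.Helper10.FF.Defs4

/-!
# Project FF, block TH2: the zeros in `S` come from zeros for almost all `j`
-/

set_option autoImplicit false
set_option linter.unusedSectionVars false

namespace Pool.Agent.FFX

open Polynomial Pool.Agent.LT Pool.Agent.SC Pool.Agent.Helper37.UL UL Pool.Agent.OPN Pool.Agent.OPG _root_.TW Pool.Agent.TWT

section tools

variable {C : Type} [Field C]

/-- valuation rings contain the elements which are algebraic over a subfield -/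
theorem mem_of_alg20 {K : Subfield C} {W : ValuationSubring C} (hK : ∀ z ∈ K, z ∈ W) {c : C}
    (hc : IsAlgebraic K c) : c ∈ W := by
  obtain ⟨p, hp, hp0⟩ := hc.isIntegral
  let f : K →+* W := K.subtype.codRestrict W.toSubring (fun z => hK z z.2)
  have h1 : IsIntegral W c := by
    refine ⟨p.map f, hp.map f, ?_⟩
    rw [eval₂_map]
    exact hp0
  obtain ⟨w, hw⟩ := IsIntegrallyClosed.algebraMap_eq_of_integral h1
  rw [← hw]
  exact w.2

/-- conjugates over a relatively algebraically closed subfield -/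
theorem conj_ext20 [IsAlgClosed C] [CharZero C] {K M : Subfield C} (hKM : K ≤ M)
    (hrel : ∀ z ∈ M, IsAlgebraic K z → z ∈ K) (halg : ∀ z : C, IsAlgebraic M z) {q q' : C}
    (hq : IsAlgebraic K q) (hconj : aeval q' (minpoly K q) = 0) :
    ∃ g : C ≃+* C, (∀ z ∈ M, g z = z) ∧ g q = q' := by
  let i1 : Algebra K M := (Subfield.inclusion hKM).toAlgebra
  have st : IsScalarTower K M C := IsScalarTower.of_algebraMap_eq fun _ => rfl
  have hqM : IsAlgebraic M q := halg q
  have h1 : ∀ n, (minpoly M q).coeff n ∈ Set.range (algebraMap K M) := by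
    intro n
    have h2 : IsIntegral K ((minpoly M q).coeff n) :=
      Polynomial.isIntegral_coeff_of_dvd (minpoly K q) (minpoly M q) (minpoly.monic hq.isIntegral)
        (minpoly.monic hqM.isIntegral) (minpoly.dvd_map_of_isScalarTower K M q) n
    have h3 : IsAlgebraic K (((minpoly M q).coeff n : M) : C) := h2.isAlgebraic.algebraMap (A := C)
    exact ⟨⟨_, hrel _ ((minpoly M q).coeff n).2 h3⟩, rfl⟩
  obtain ⟨P, hP⟩ := (Polynomial.mem_lifts _).1 ((Polynomial.lifts_iff_coeff_lifts _).2 h1)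
  have h4 : aeval q P = 0 := by
    rw [← minpoly.aeval M q, ← hP, aeval_map_algebraMap]
  have h5 : minpoly K q ∣ P := minpoly.dvd K q h4
  have h6 : aeval q' (minpoly M q) = 0 := by
    rw [← hP, aeval_map_algebraMap]
    obtain ⟨Q, rfl⟩ := h5
    rw [map_mul, hconj, zero_mul]
  have hac : IsAlgClosure M C := ⟨inferInstance, ⟨halg⟩⟩
  have hn : Normal M C := IsAlgClosure.normal M C
  obtain ⟨σ, hσ⟩ := minpoly.exists_algEquiv_of_root' hqM h6
  exact ⟨σ.toRingEquiv, fun z hz => σ.commutes ⟨z, hz⟩, hσ⟩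

end tools

/-- **Block TH2.** -/
theorem th2 : StmtTH2 := by
  intro E C _ _ _ _ _ _ A T q m J U S _ π h a Fv u hs
  classical
  have hC0 := hs.charC
  have hSa : IsAlgClosed S := h.isAlgClosed
  have hS0 : CharZero S := h.charZero
  set x : Fin (m + 2) → S := xg π fun j e => algebraMap E C (a j e) with hxdef
  set Cs : Subfield C := acl (ad A {T}) with hCs
  intro ι' hz
  have hTC : T ∈ Cs := hs.hTC
  have hqC : q ∈ Cs := hs.hqC
  have huC : ∀ e, u e ∈ Cs := hs.hu'
  have hACs : A ≤ Cs := le_ad.trans le_acl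
  have hAcl : acl A ≤ Cs := acl_mono le_ad
  obtain ⟨τ, hτ⟩ : ∃ τ : S, τ = ι' ⟨T, hTC⟩ := ⟨_, rfl⟩
  have hconst : ∀ z : Cs, (z : C) ∈ acl A → ι' z = UP.cst π z := hz.const
  -- algebraicity
  have hsub' : ∀ y : Cs, (y : C) ∈ ad A {T} → ι' y ∈ ad (A.map (UP.cst π)) {τ} := by
    have h1 : ad A {T} ≤ ((ad (A.map (UP.cst π)) {τ}).comap ι').map Cs.subtype := by
      refine ad_le ?_ ?_
      · intro z hzA
        refine ⟨⟨z, hACs hzA⟩, ?_, rfl⟩
        change ι' ⟨z, hACs hzA⟩ ∈ ad (A.map (UP.cst π)) {τ}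
        rw [hconst ⟨z, hACs hzA⟩ (le_acl hzA)]
        exact le_ad ⟨z, hzA, rfl⟩
      · intro z hzT
        rw [Set.mem_singleton_iff.1 hzT]
        refine ⟨⟨T, hTC⟩, ?_, rfl⟩
        change ι' ⟨T, hTC⟩ ∈ ad (A.map (UP.cst π)) {τ}
        rw [← hτ]
        exact mem_adE
    intro y hy
    obtain ⟨w, hw, hwy⟩ := h1 hy
    have h2 : w = y := Subtype.ext hwy
    rw [← h2]
    exact hw
  have hal' : ∀ z : Cs, IsAlgebraic (ad (A.map (UP.cst π)) {τ}) (ι' z) := fun z =>
    alg_map' ι' (K := (ad A {T}).comap Cs.subtype) (fun y hy => hsub' y hy)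
      (alg_comap le_acl (mem_acl.1 z.2))
  have hrel : x 0 + ∑ i : Fin (m + 1), x i.succ * ι' ⟨u i.succ, huC _⟩ = 0 := by
    have h1 := hz.rel huC
    have h0 : (⟨u 0, huC 0⟩ : Cs) = 1 := Subtype.ext hs.hu0
    rw [Fin.sum_univ_succ, h0, map_one, mul_one] at h1
    exact h1
  have hτx : IsAlgebraic (gn (A.map (UP.cst π)) x) τ := by
    have h1 := _root_.TW.tau_alg_W hs.hx hrel (τ := τ) fun i => alg_adjoin_iff.2 (hal' _)
    rw [← adjoin_toSubfield_gn]
    exact h1
  -- `τ` is the germ of a function with values in `E`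
  set R : Subfield C := (algebraMap E C).fieldRange with hR
  have hRcl : ∀ z : C, IsAlgebraic R z → z ∈ R := fun z hz => acl_range le_rfl (mem_acl.2 hz)
  have hgR : gn (A.map (UP.cst π)) x ≤ h.gsub R := by
    refine gn_le ?_ ?_
    · rintro _ ⟨z, hz, rfl⟩
      exact ⟨fun _ => z, fun _ => hs.hA hz, rfl⟩
    · intro e
      exact ⟨fun j => algebraMap E C (a j e), fun j => ⟨_, rfl⟩, rfl⟩
  obtain ⟨f, hf, hfτ⟩ := h.gsub_algClosed hRcl (isAlgebraic_mono hgR hτx)
  choose t ht using hf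
  -- the places
  choose W hW using fun j => exists_place hs.hT hs.halg (t j)
  choose lam hlam hlam0 using fun j => exists_lam (hW j)
  have hE : ∀ j, ∀ e : E, algebraMap E C e ∈ W j := fun j => (hW j).const
  have hTt : ∀ j, (W j).valuation (T - algebraMap E C (t j)) < 1 := fun j =>
    ((W j).mem_nonunits_iff).1 (hW j).t_mem
  have hTW : ∀ j, T ∈ W j := fun j => mem_O (hE j) (hTt j)
  obtain ⟨φ, hφ⟩ : ∃ φ : A →+* E, ∀ r, algebraMap E C (φ r) = r := by
    let e : E ≃+* (algebraMap E C).fieldRange :=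
      RingEquiv.ofBijective (algebraMap E C).rangeRestrictField
        ⟨(algebraMap E C).rangeRestrictField.injective, fun ⟨_, e, he⟩ => ⟨e, Subtype.ext he⟩⟩
    refine ⟨(e.symm : (algebraMap E C).fieldRange →+* E).comp (Subfield.inclusion hs.hA), fun r => ?_⟩
    have h1 : e (e.symm (Subfield.inclusion hs.hA r)) = Subfield.inclusion hs.hA r :=
      e.apply_symm_apply _
    exact congrArg Subtype.val h1
  let iA : Algebra A E := φ.toAlgebra
  have sA : IsScalarTower A E C := IsScalarTower.of_algebraMap_eq fun r => (hφ r).symm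
  have hpC : ∀ p : A[X], aeval T p ∈ Cs := by
    intro p
    rw [aeval_eq_sum_range]
    refine sum_mem fun i _ => ?_
    rw [Algebra.smul_def]
    exact mul_mem (hACs (p.coeff i).2) (pow_mem hTC _)
  have hιp : ∀ p : A[X], ι' ⟨aeval T p, hpC p⟩ =
      π (fun j => algebraMap E C ((p.map (algebraMap A E)).eval (t j))) := by
    intro p
    let f₁ : A[X] →+* S := ι'.comp (((aeval T : A[X] →ₐ[A] C) : A[X] →+* C).codRestrict
      Cs.toSubring hpC)
    let f₂ : A[X] →+* S := π.comp (RingHom.pi fun j =>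
      (algebraMap E C).comp ((evalRingHom (t j)).comp (mapRingHom (algebraMap A E))))
    have h1 : f₁ = f₂ := by
      refine Polynomial.ringHom_ext (fun r => ?_) ?_
      · have h2 : f₁ (Polynomial.C r) = ι' ⟨(r : C), hACs r.2⟩ := by
          change ι' ⟨aeval T (Polynomial.C r), hpC _⟩ = _
          congr 1
          exact Subtype.ext (aeval_C _ _)
        rw [h2, hconst _ (le_acl r.2)]
        change π (fun _ => (r : C)) = π (fun j => algebraMap E C
          (((Polynomial.C r).map (algebraMap A E)).eval (t j)))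
        congr 1
        funext j
        rw [map_C, eval_C]
        exact (hφ r).symm
      · have h2 : f₁ X = τ := by
          rw [hτ]
          change ι' ⟨aeval T (X : A[X]), hpC _⟩ = _
          congr 1
          exact Subtype.ext (aeval_X _)
        rw [h2, ← hfτ]
        change π f = π (fun j => algebraMap E C (((X : A[X]).map (algebraMap A E)).eval (t j)))
        congr 1
        funext j
        rw [map_X, eval_X, ht]
    exact congrArg (fun g : A[X] →+* S => g p) h1
  have hunitP : ∀ p : A[X], p ≠ 0 → ∀ᶠ j in (U : Filter J), (W j).valuation (aeval T p) = 1 := by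
    intro p hp
    have h1 : aeval T p ≠ 0 := fun h0 => hp (transcendental_iff.1 hs.sd.tr p h0)
    have h2 : ι' ⟨aeval T p, hpC p⟩ ≠ 0 := by
      rw [_root_.map_ne_zero]
      exact fun h0 => h1 (congrArg Subtype.val h0)
    rw [hιp, h.ne0] at h2
    filter_upwards [h2] with j hj
    have h3 := val_aeval_one (hE j) (hTt j) (P := p.map (algebraMap A E))
      (fun h0 => hj (by rw [h0, map_zero]))
    rwa [aeval_map_algebraMap] at h3
  have hmem0 : ∀ c ∈ ad A {T}, ∀ᶠ j in (U : Filter J), c ∈ W j := by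
    intro c hc
    obtain ⟨r, s, hrs⟩ := (IntermediateField.mem_adjoin_simple_iff A c).1 (mem_adjoin_iff.2 hc)
    by_cases hs0 : s = 0
    · rw [hrs, hs0, map_zero, div_zero]
      exact Filter.Eventually.of_forall fun j => zero_mem _
    by_cases hr0 : r = 0
    · rw [hrs, hr0, map_zero, zero_div]
      exact Filter.Eventually.of_forall fun j => zero_mem _
    filter_upwards [hunitP r hr0, hunitP s hs0] with j h1 h2
    rw [hrs, ← ValuationSubring.valuation_le_one_iff, map_div₀, h1, h2, div_one]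
  let W0 : ValuationSubring C :=
    { carrier := {c | ∀ᶠ j in (U : Filter J), c ∈ W j}
      mul_mem' := by
        intro a b ha hb
        filter_upwards [ha, hb] with j h1 h2
        exact mul_mem h1 h2
      one_mem' := Filter.Eventually.of_forall fun j => one_mem (W j)
      add_mem' := by
        intro a b ha hb
        filter_upwards [ha, hb] with j h1 h2
        exact add_mem h1 h2
      zero_mem' := Filter.Eventually.of_forall fun j => zero_mem (W j)
      neg_mem' := by
        intro a ha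
        filter_upwards [ha] with j h1
        exact neg_mem h1
      mem_or_inv_mem' := by
        intro a
        change (∀ᶠ j in (U : Filter J), a ∈ W j) ∨ (∀ᶠ j in (U : Filter J), a⁻¹ ∈ W j)
        rw [← Ultrafilter.eventually_or]
        exact Filter.Eventually.of_forall fun j => (W j).mem_or_inv_mem a }
  have hmem : ∀ c ∈ Cs, ∀ᶠ j in (U : Filter J), c ∈ W j := fun c hc =>
    mem_of_alg20 (W := W0) (K := ad A {T}) hmem0 (mem_acl.1 hc)
  -- the residue map
  obtain ⟨ι₂, hι₂⟩ := exists_iotaS h hmem (lam := lam)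
  have hι₂T : ι₂ ⟨T, hTC⟩ = τ := by
    rw [hι₂, ← hfτ, h.eq_iff]
    filter_upwards with j
    rw [lc_of_mem (hTW j), lam_eq (hE j) (hlam j) (hlam0 j) (z := ⟨T, hTW j⟩) (hTt j), ht]
  have hι₂c : ∀ z : Cs, (z : C) ∈ acl A → ι₂ z = UP.cst π z := fun z hz =>
    iota_const h hE hlam hι₂ (acl_range hs.hA hz)
  -- agreement
  set B : Subfield C := ad (acl A) {T} with hB
  have hBCs : B ≤ Cs := by
    refine ad_le hAcl ?_
    intro z hz
    rw [Set.mem_singleton_iff.1 hz]
    exact hTC
  have hagree : ∀ z : Cs, (z : C) ∈ B → ι₂ z = ι' z := by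
    have h1 : B ≤ (ι₂.eqLocusField ι').map Cs.subtype := by
      refine ad_le ?_ ?_
      · intro z hz
        exact ⟨⟨z, hAcl hz⟩, (hι₂c ⟨z, hAcl hz⟩ hz).trans (hconst ⟨z, hAcl hz⟩ hz).symm, rfl⟩
      · intro z hz
        rw [Set.mem_singleton_iff.1 hz]
        exact ⟨⟨T, hTC⟩, hι₂T.trans hτ, rfl⟩
    intro z hz
    obtain ⟨w, hw, hwz⟩ := h1 hz
    have h2 : w = z := Subtype.ext hwz
    rw [← h2]
    exact hw
  -- the conjugate of `q`
  have hclC : IsAlgClosed Cs := isAlgClosed_of fun z hz => acl_closed hz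
  obtain ⟨q', hq'⟩ : ∃ q' : Cs, ι₂ q' = ι' ⟨q, hqC⟩ := by
    have h1 : IsAlgebraic ((⊤ : Subfield Cs).map ι₂) (ι' ⟨q, hqC⟩) := by
      refine isAlgebraic_mono ?_ (hal' ⟨q, hqC⟩)
      refine ad_le ?_ ?_
      · rintro _ ⟨z, hz, rfl⟩
        exact ⟨⟨z, hACs hz⟩, trivial, hι₂c ⟨z, hACs hz⟩ (le_acl hz)⟩
      · intro z hz
        rw [Set.mem_singleton_iff.1 hz]
        exact ⟨⟨T, hTC⟩, trivial, hι₂T⟩
    obtain ⟨q', -, hq'⟩ := PL.map_closed (κ := (⊤ : Subfield Cs)) (fun _ _ => trivial) ι₂ h1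
    exact ⟨q', hq'⟩
  have hqB : IsAlgebraic B q := isAlgebraic_mono (ad_mono le_acl le_rfl) hs.hq
  have hconj : aeval (q' : C) (minpoly B q) = 0 := by
    let κ : B →+* Cs := Subfield.inclusion hBCs
    have h1 : eval₂ κ ⟨q, hqC⟩ (minpoly B q) = 0 := by
      apply Cs.subtype.injective
      rw [map_zero, hom_eval₂]
      exact minpoly.aeval B q
    have h2 : ι₂.comp κ = ι'.comp κ := RingHom.ext fun z => hagree (κ z) z.2
    have h3 : eval₂ κ q' (minpoly B q) = 0 := by
      apply ι₂.injective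
      rw [map_zero, hom_eval₂, h2, hq', ← hom_eval₂, h1, map_zero]
    have h4 := congrArg Cs.subtype h3
    rw [map_zero, hom_eval₂] at h4
    exact h4
  have hTR : Transcendental R T := fun h0 => hs.hT (Pool.Agent.TD.isAlgebraic_range_iff.1 h0)
  have halgR : ∀ z : C, IsAlgebraic (ad R {T}) z := by
    intro z
    rw [← adjoin_sub]
    exact hs.halg z
  obtain ⟨g, hgM, hgq⟩ := conj_ext20 (K := B) (M := ad R {T}) (ad_mono (acl_range hs.hA) le_rfl)
    (gauss_ad (acl_range hs.hA) (fun z _ hz => acl_closed hz) hTR) halgR hqB hconj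
  -- the new places
  let W' : J → ValuationSubring C := fun j => (W j).comap (g : C →+* C)
  have hW' : ∀ j z, g z ∈ W j ↔ z ∈ W' j := fun _ _ => Iff.rfl
  let lam' : ∀ j, W' j →+* E := fun j => (lam j).comp
    (((g : C →+* C).comp (W' j).subtype).codRestrict (W j).toSubring (fun z => z.2))
  have hgE : ∀ e : E, g (algebraMap E C e) = algebraMap E C e := fun e => hgM _ (le_ad ⟨e, rfl⟩)
  have hgT : g T = T := hgM _ mem_adE
  have hE' : ∀ j, ∀ e : E, algebraMap E C e ∈ W' j := by
    intro j e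
    rw [← hW', hgE]
    exact hE j e
  have hlam' : ∀ j, ∀ (e : E) (he : algebraMap E C e ∈ W' j), lam' j ⟨_, he⟩ = e := by
    intro j e he
    have h2 : ∀ (z : C) (hz : z ∈ W j), z = algebraMap E C e → lam j ⟨z, hz⟩ = e := by
      intro z hz hze
      subst hze
      exact hlam j _ _
    exact h2 _ he (hgE e)
  have hlam0' : ∀ j, ∀ z : W' j, lam' j z = 0 ↔ (W' j).valuation (z : C) < 1 := by
    intro j z
    have h1 : lam' j z = lam j ⟨g z, z.2⟩ := rfl
    rw [h1, hlam0]
    exact val_lt_iff1 (hW' j)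
  have hlc : ∀ c j, lc W' lam' c j = lc W lam (g c) j := by
    intro c j
    by_cases hc : g c ∈ W j
    · rw [lc_of_mem (show c ∈ W' j from hc), lc_of_mem hc]
      rfl
    · unfold lc
      rw [dif_neg hc, dif_neg (show ¬ c ∈ W' j from hc)]
  have hgCs : ∀ c ∈ Cs, g c ∈ Cs := by
    intro c hc
    refine mem_acl.2 (alg_map' (g : C →+* C) (fun y hy => ?_) (mem_acl.1 hc))
    rw [show (g : C →+* C) y = y from hgM y (ad_mono hs.hA le_rfl hy)]
    exact hy
  have hmem' : ∀ c ∈ Cs, ∀ᶠ j in (U : Filter J), c ∈ W' j := fun c hc => hmem (g c) (hgCs c hc)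
  obtain ⟨ι, hι⟩ := exists_iotaS h hmem' (lam := lam')
  have hιg : ∀ c : Cs, ι c = ι₂ ⟨g c, hgCs c c.2⟩ := by
    intro c
    rw [hι, hι₂]
    exact congrArg π (funext fun j => hlc c j)
  have hιT : ι ⟨T, hTC⟩ = τ := by
    rw [hιg, ← hι₂T]
    exact congrArg ι₂ (Subtype.ext hgT)
  have hιq : ι ⟨q, hqC⟩ = ι' ⟨q, hqC⟩ := by
    rw [hιg, ← hq']
    exact congrArg ι₂ (Subtype.ext hgq)
  have hιc : ∀ z : Cs, (z : C) ∈ acl A → ι z = UP.cst π z := fun z hz =>
    iota_const h hE' hlam' hι (acl_range hs.hA hz)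
  have hιu : ∀ e, ι ⟨u e, huC e⟩ = ι' ⟨u e, huC e⟩ := by
    have h1 : ad A {T, q} ≤ (ι.eqLocusField ι').map Cs.subtype := by
      refine ad_le ?_ ?_
      · intro z hz
        exact ⟨⟨z, hACs hz⟩, (hιc ⟨z, hACs hz⟩ (le_acl hz)).trans
          (hconst ⟨z, hACs hz⟩ (le_acl hz)).symm, rfl⟩
      · rintro z (hz | hz)
        · rw [hz]
          exact ⟨⟨T, hTC⟩, hιT.trans hτ, rfl⟩
        · rw [Set.mem_singleton_iff.1 hz]
          exact ⟨⟨q, hqC⟩, hιq, rfl⟩
    intro e
    obtain ⟨w, hw, hwz⟩ := h1 (hs.hu e)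
    have h2 : w = ⟨u e, huC e⟩ := Subtype.ext hwz
    rw [← h2]
    exact hw
  -- the zeros
  have hv : ∀ᶠ j in (U : Filter J), (W' j).valuation (gv a u j) < 1 := by
    have h1 := sum_iotaS (a := a) hι (fun e => ⟨u e, huC e⟩)
    have h2 : ∑ e, x e * ι ⟨u e, huC e⟩ = 0 := by
      rw [← hz.rel huC]
      exact Finset.sum_congr rfl fun e _ => by rw [hιu]
    have h3 := (h.eq0 _).1 (h1.symm.trans h2)
    filter_upwards [h3, Filter.eventually_all.2 fun e => hmem' (u e) (huC e)] with j h4 h5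
    have hs' : ∑ e, algebraMap E C (a j e) * u e ∈ W' j :=
      sum_mem fun e _ => mul_mem (hE' j _) (h5 e)
    have h6 := lc_sum (F := E) (vv := a) hE' hlam' h5 hs'
    rw [h4] at h6
    exact (hlam0' j ⟨_, hs'⟩).1 ((_root_.map_eq_zero (algebraMap E C)).1 h6.symm)
  exact ⟨W', lam', ι, ⟨hE', hlam', hlam0', hv, hι⟩, fun hT => hιT.trans hτ⟩

end Pool.Agent.FFX
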