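import Pool.Agent.Helper13.GC.C11
import Pool.Agent.Helper20.FF.S2g
import Pool.Agent.Helper13.TW.FP2

/-!
# Project FF, block LOC: the bad place is a branch place, good places above branch places are fixed
-/

universe u

set_option linter.unusedSectionVars false

namespace Pool.Agent.FFL20

open VC Polynomial Pool.Agent.LT Pool.Agent.SC Pool.Agent.Helper91.Sect Pool.Agent.GC Pool.Agent

variable {k₁ k K₀ K : Type u} [Field k₁] [CharZero k₁] [Field k] [Field K₀] [Field K]
  [Algebra k₁ k] [Algebra k K₀] [Algebra k K] [Algebra K₀ K] [IsScalarTower k K₀ K]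
  [Algebra k₁ K] [IsScalarTower k₁ k K]
  {n : ℕ} {c : k} {g x z₀ : K₀} {f : k[X]} {S : Finset k} {y : K}

/-- At a bad place there is a place stable under the decomposition group and under a nontrivial automorphism over the
compositum of `kbar` and `K₀`. -/
theorem place_of_badG (h : CycE n c g x z₀ f S y) (s : GaloisSection k K)
    (hk : ∃ S : Finset k, Subfield.closure (S : Set k) = ⊤)
    (hrat : ∀ z : MM k K, IntermediateField.adjoin (kbar k K) {z} ≠ ⊤)
    (hF : ∃ S : Finset k₁, Subfield.closure (S : Set k₁) = ⊤)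
    (t : k) (hfin : FiniteDimensional (IntermediateField.adjoin k₁ {t}) k)
    {W : ValuationSubring (kbar k K)} (hW : W ≠ ⊤)
    (hk₁ : ∀ c : k₁, algebraMap k₁ (kbar k K) c ∈ W) (hf : GoodRed W f)
    (hS : ∀ c ∈ S, algebraMap k (kbar k K) c ∈ W)
    {ϖ c₁ : k} {j : ℕ} (hϖ : algebraMap k (kbar k K) ϖ ∈ W.nonunits) (hϖ0 : ϖ ≠ 0)
    (hdisc : ∀ z : k, z ≠ 0 → ∃ i : ℤ, W.valuation (algebraMap k (kbar k K) z) =
      W.valuation (algebraMap k (kbar k K) ϖ) ^ i)
    (hcj : c = ϖ ^ j * c₁) (hj : ¬ n ∣ j) (hc₁ : algebraMap k (kbar k K) c₁ ∈ W)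
    (hc₁u : algebraMap k (kbar k K) c₁ ∉ W.nonunits) :
    ∃ P : ValuationSubring (UU k K), (∀ c : kbar k K, algebraMap (kbar k K) (UU k K) c ∈ P) ∧
      P ≠ ⊤ ∧ (∀ γ : Gk k K, InDecomp W γ → ∀ z, actU s γ z ∈ P ↔ z ∈ P) ∧
      ∃ σ : UU k K ≃ₐ[kbar k K] UU k K, (∀ l ∈ LL k K₀ K, σ l = l) ∧
        (∃ m ∈ MM k K, σ m ≠ m) ∧ ∀ z, σ z ∈ P ↔ z ∈ P := by
  have hac : IsAlgClosed (algebraicClosure k₁ (kbar k K)) :=
    (inferInstance : IsAlgClosure k₁ (algebraicClosure k₁ (kbar k K))).isAlgClosed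
  have hk0 : CharZero k := charZero_of_injective_algebraMap (algebraMap k₁ k).injective
  obtain ⟨t', hb⟩ := exists_base' (K := K) t hfin hW hk₁
  let iUX : Algebra (UU k K) (XX (algebraMap K₀ K x) (rootsB K f)) := algUX h.UU_le
  have s1 : IsScalarTower (kbar k K) (UU k K) (XX (algebraMap K₀ K x) (rootsB K f)) :=
    IsScalarTower.of_algebraMap_eq fun _ => rfl
  have s2 : IsScalarTower (algebraicClosure k₁ (kbar k K)) (UU k K)
      (XX (algebraMap K₀ K x) (rootsB K f)) := IsScalarTower.of_algebraMap_eq fun _ => rfl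
  have hu : CSetup (algebraicClosure k₁ (kbar k K)) (XX (algebraMap K₀ K x) (rootsB K f)) W t'
    (rootsB K f) (toU (k := k) (K := K) (algebraMap K₀ K x)) (LL k K₀ K) (MM k K) := h.csetup hb hf hk0
  obtain ⟨V, hV⟩ := exists_gauss (N := UU k K) hb hu.tr
  have ha := locAct' s hF t hfin hW hk₁ (algebraMap K₀ K x)
  obtain ⟨τ, hτ, z, hzV, hzM, hz⟩ :=
    h.inert_nontrivial s hb hf hS hϖ hϖ0 hdisc hcj hj hc₁ hc₁u hV
  obtain ⟨P, h1, h2, h3, -, h4⟩ := exists_placeG ha hu hV
    (fun τ hτ z hz hzL => h.inert_trivial_LL s hb hf hS hV hτ hz hzL)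
    ⟨τ, hτ, z, hzV, hzM, hz⟩
    (fun g hgL hg hne P P' hP hP1 hPg hP' hP1' hPg' =>
      h.fixed_unique hk hrat g hgL hg hne hP hP1 hPg hP' hP1' hPg')
  exact ⟨P, h1, h2, h3, h4⟩

/-- A place `P` fixed by a nontrivial automorphism over the compositum: `y` has not the value of an element of the
compositum. -/
theorem val_ne_of_fixed (h : CycE n c g x z₀ f S y) [CharZero k]
    {P : ValuationSubring (UU k K)} (hPK : ∀ c : kbar k K, algebraMap (kbar k K) (UU k K) c ∈ P)
    (hP1 : P ≠ ⊤) {σ : UU k K ≃ₐ[kbar k K] UU k K} (hσL : ∀ l ∈ LL k K₀ K, σ l = l)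
    (hσM : ∃ m ∈ MM k K, σ m ≠ m) (hPσ : ∀ z, σ z ∈ P ↔ z ∈ P) {u : UU k K}
    (hu : u ∈ LL k K₀ K) : P.valuation (toU (k := k) (K := K) y) ≠ P.valuation u := by
  intro heq
  have hy0 : toU (k := k) (K := K) y ≠ 0 := by rw [Ne, map_eq_zero]; exact h.y_ne_C5
  have hu0 : u ≠ 0 := by
    rintro rfl
    rw [map_zero, Valuation.zero_iff] at heq
    exact hy0 heq
  obtain ⟨ζ, -, hζ⟩ := h.exists_zeta σ hσL
  have hζ1 : ζ ≠ 1 := by
    rintro rfl
    rw [map_one, one_mul] at hζ
    obtain ⟨m, hm, hm'⟩ := hσM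
    apply hm'
    let T0 : IntermediateField (kbar k K) (UU k K) :=
      { RingHom.eqLocusField ((σ : UU k K ≃+* UU k K) : UU k K →+* UU k K) (RingHom.id _) with
        algebraMap_mem' := fun c => σ.commutes c }
    have h2 : MM k K ≤ T0 := by
      rw [h.MM_eq, IntermediateField.adjoin_le_iff]
      rintro w (hw | hw)
      · exact hσL w hw
      · rw [Set.mem_singleton_iff] at hw
        rw [hw]
        exact hζ
    exact h2 hm
  have hval : P.valuation (toU (k := k) (K := K) y / u) = 1 := by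
    rw [map_div₀, heq]
    exact div_self ((Valuation.ne_zero_iff _).2 hu0)
  have hcov : IsCover (MM k K) := isCover_UU h.isFunctionField
  have hgal := hcov.gal
  refine not_unit_of_fixed (E := kbar k K) (R := P) (σ := σ) (v := toU (k := k) (K := K) y / u)
    (ξ := ζ) ?_ hPK ?_ ?_ hζ1 ?_ ?_ ?_
  · intro c x
    rw [map_add, σ.commutes]
  · intro z hz
    exact exists_const_residue_abs (M := MM k K) hcov.ff hPK hP1 hz
  · intro z hz
    rw [ValuationSubring.mem_nonunits_iff_or] at hz ⊢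
    rw [← map_inv₀, hPσ, map_eq_zero_iff σ σ.injective]
    exact hz
  · rw [map_div₀, hσL u hu, hζ, mul_div_assoc]
  · rw [← P.valuation_le_one_iff, hval]
  · rw [ValuationSubring.mem_nonunits_iff, hval]
    exact lt_irrefl _

theorem val_one_of_mem {F : Type*} [Field F] {P : ValuationSubring F} {z : F} (h1 : z ∈ P)
    (h2 : z⁻¹ ∈ P) (h0 : z ≠ 0) : P.valuation z = 1 := by
  have h3 := (P.valuation_le_one_iff _).2 h1
  have h4 := (P.valuation_le_one_iff _).2 h2
  rw [map_inv₀] at h4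
  exact le_antisymm h3 ((inv_le_one₀ (zero_lt_iff.2 ((Valuation.ne_zero_iff _).2 h0))).1 h4)

/-- A place at which `g` is no unit lies above a root of `f` or above infinity. -/
theorem above_of_val_ne (h : CycE n c g x z₀ f S y) [CharZero k]
    {P : ValuationSubring (UU k K)} (hPK : ∀ c : kbar k K, algebraMap (kbar k K) (UU k K) c ∈ P)
    (hg : P.valuation (toU (k := k) (K := K) (algebraMap K₀ K g)) ≠ 1) :
    toU (k := k) (K := K) (algebraMap K₀ K x) ∉ P ∨
      ∃ b ∈ rootsB K f, toU (k := k) (K := K) (algebraMap K₀ K x) - algebraMap (kbar k K) (UU k K) b ∈ P.nonunits := by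
  classical
  by_contra hcon
  push Not at hcon
  obtain ⟨hx, hB⟩ := hcon
  let iA : Algebra K₀ (UU k K) := ((toU (k := k) (K := K)).comp (algebraMap K₀ K)).toAlgebra
  have hal : ∀ z : K₀, algebraMap K₀ (UU k K) z = toU (k := k) (K := K) (algebraMap K₀ K z) := fun _ => rfl
  have hc : ∀ c : k, algebraMap K₀ (UU k K) (algebraMap k K₀ c) =
      algebraMap (kbar k K) (UU k K) (algebraMap k (kbar k K) c) := by
    intro c
    rw [hal, ← IsScalarTower.algebraMap_apply k K₀ K]
    exact F2_toU_algebraMap c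
  have hf0 : f ≠ 0 := by
    rintro rfl
    have := h.deg
    simp at this
  have hcov : IsCover (MM k K) := isCover_UU h.isFunctionField
  have hgal := hcov.gal
  have hg0 : toU (k := k) (K := K) (algebraMap K₀ K g) ≠ 0 := by
    rw [Ne, map_eq_zero, map_eq_zero]
    exact h.g_ne
  have hP1 : P ≠ ⊤ := fun hP => hg (val_one_of_mem (by rw [hP]; trivial) (by rw [hP]; trivial) hg0)
  obtain ⟨b, hb⟩ := exists_const_residue_abs (M := MM k K) hcov.ff hPK hP1 hx
  have hb' : toU (k := k) (K := K) (algebraMap K₀ K x) - algebraMap (kbar k K) (UU k K) b ∈ P.nonunits :=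
    (ValuationSubring.mem_nonunits_iff P).2 hb
  have hfb : aeval b f ≠ 0 := fun h0 => hB b ((mem_rootsB hf0).2 h0) hb'
  have hfx : algebraMap K₀ (UU k K) (aeval x f) ∉ P.nonunits := by
    intro hfx
    have e1 : algebraMap K₀ (UU k K) (aeval x f) = aeval (toU (k := k) (K := K) (algebraMap K₀ K x))
        (f.map (algebraMap k (kbar k K))) := by
      rw [aeval_def, hom_eval₂, ← hal, aeval_def, eval₂_map]
      congr 1
      apply RingHom.ext
      intro c
      exact hc c
    have h1 := TW.aeval_sub_mem P hPK hb' (f.map (algebraMap k (kbar k K)))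
    rw [← e1] at h1
    have h2 : algebraMap (kbar k K) (UU k K) (eval b (f.map (algebraMap k (kbar k K)))) ∈ P.nonunits := by
      rw [ValuationSubring.mem_nonunits_iff] at h1 hfx ⊢
      have h3 := P.valuation.map_sub_lt hfx h1
      rwa [sub_sub_cancel] at h3
    rw [ValuationSubring.mem_nonunits_iff_or, ← map_inv₀] at h2
    rcases h2 with h2 | h2
    · apply hfb
      rw [map_eq_zero, eval_map] at h2
      exact h2
    · exact h2 (hPK _)
  obtain ⟨h1, h2, -, -⟩ := h.good (UU k K) P (fun c _ => by rw [hc]; exact hPK _) hx hfx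
  apply hg
  rw [← hal]
  refine le_antisymm ((P.valuation_le_one_iff _).2 h1) ?_
  rw [ValuationSubring.mem_nonunits_iff, not_lt] at h2
  exact h2

end Pool.Agent.FFL20
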