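import Pool.Agent.Helper20.FF.H3a

/-!
# Project FF, field side, block H3J: all zeros are conjugate, for almost all `j`
-/

set_option autoImplicit false

namespace Pool.Agent.FFX.H20

open Polynomial Pool.Agent.LT Pool.Agent.SC Pool.Agent.Helper37.UL UL Pool.Agent.OPN Pool.Agent.OPG _root_.TW Pool.Agent.TWT

variable {E C : Type} [Field E] [IsAlgClosed E] [CharZero E] [Field C] [IsAlgClosed C] [Algebra E C]
  {A : Subfield C} {T q : C} {m : ℕ} {J : Type} {U : Ultrafilter J} {S : Type} [Field S]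
  {π : (J → C) →+* S} {h : UP U π} {a : J → Fin (m + 2) → E} {Fv : J → Subfield C}
  {u : Fin (m + 2) → C}

theorem q_mem (H : Setup E A T q h a Fv u) : q ∈ acl (ad A {T}) := mem_acl.2 H.hq

theorem u_mem (H : Setup E A T q h a Fv u) (e : Fin (m + 2)) : u e ∈ acl (ad A {T}) := by
  have hTq : ad A {T, q} ≤ acl (ad A {T}) := by
    rw [ad_pair]
    refine ad_le le_acl ?_
    intro z hz
    rw [Set.mem_singleton_iff.1 hz]
    exact q_mem H
  exact hTq (H.hu e)

theorem trA (H : Setup E A T q h a Fv u) : Transcendental A T := by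
  intro h0
  apply H.hT
  have h1 : IsAlgebraic (algebraMap E C).fieldRange T := isAlgebraic_mono H.hA h0
  exact Pool.Agent.TD.isAlgebraic_range_iff.1 h1

/-- the data in `S` -/
theorem sd (H : Setup E A T q h a Fv u) :
    SD (UP.cst π) A T q u (xg π fun j e => algebraMap E C (a j e)) (h.fsub Fv) where
  tr := trA H
  hq := H.hq
  hx := H.hx
  hAD := by
    rintro _ ⟨z, hz, rfl⟩
    exact h.const_mem_fsub fun j => H.hAFv j hz
  hxD := fun e => ⟨fun j => algebraMap E C (a j e), fun j => H.haFv j e, rfl⟩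
  hwr := H.hwr
  hu0 := H.hu0
  hu1 := H.hu1
  hu := H.hu

/-- the generic residue map of a family of zeros -/
theorem exists_zero (H : Setup E A T q h a Fv u) {W : J → ValuationSubring C}
    (hE : ∀ j, ∀ e : E, algebraMap E C e ∈ W j) {lam : ∀ j, W j →+* E}
    (hlam : ∀ j, ∀ (e : E) (he : algebraMap E C e ∈ W j), lam j ⟨_, he⟩ = e)
    (hlam0 : ∀ j, ∀ x : W j, lam j x = 0 ↔ (W j).valuation (x : C) < 1)
    (hv : ∀ᶠ j in (U : Filter J), (W j).valuation (gv a u j) < 1) :
    ∃ ι : acl (ad A {T}) →+* S, Zero E A T h a u W lam ι := by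
  obtain ⟨ι, hι⟩ := exists_iotaS h (W := W) (lam := lam) (Cs := acl (ad A {T}))
    (fun c hc => ev_mem_W H.hA h H.hx H.hu0 (u_mem H) hE hv hc)
  exact ⟨ι, hE, hlam, hlam0, hv, hι⟩

theorem zero_sz (H : Setup E A T q h a Fv u) {W : J → ValuationSubring C} {lam : ∀ j, W j →+* E}
    {ι : acl (ad A {T}) →+* S} (Z : Zero E A T h a u W lam ι) :
    SZ (UP.cst π) A T u (xg π fun j e => algebraMap E C (a j e)) ι where
  const z hz := iota_const h Z.hE Z.hlam Z.hι (acl_range H.hA hz)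
  rel hu := by
    have h1 := rel_S (a := a) h H.hu0 Z.hE Z.hlam Z.hlam0
      (fun c hc => ev_mem_W H.hA h H.hx H.hu0 (u_mem H) Z.hE Z.hv hc) Z.hι Z.hv hu
    rw [Fin.sum_univ_succ]
    have h0 : (⟨u 0, hu 0⟩ : acl (ad A {T})) = 1 := Subtype.ext H.hu0
    rw [h0, map_one, mul_one]
    exact h1

/-- the generic residues are algebraic over the germs -/
theorem zero_alg (H : Setup E A T q h a Fv u) {W : J → ValuationSubring C} {lam : ∀ j, W j →+* E}
    {ι : acl (ad A {T}) →+* S} (Z : Zero E A T h a u W lam ι) (c : acl (ad A {T})) :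
    ι c ∈ acl (h.fsub Fv) := by
  have hmem : ∀ c ∈ acl (ad A {T}), ∀ᶠ j in (U : Filter J), c ∈ W j := fun c hc =>
    ev_mem_W H.hA h H.hx H.hu0 (u_mem H) Z.hE Z.hv hc
  have hACs : ad A {T} ≤ acl (ad A {T}) := le_acl
  have hS := sd H
  have halg : ∀ z : acl (ad A {T}), IsAlgebraic (ad (A.map (UP.cst π)) {ι ⟨T, hACs mem_adE⟩}) (ι z) :=
    fun z => alg_iotaS H.hA h Z.hE Z.hlam Z.hι hACs (mem_acl.1 z.2)
  have hrel := rel_S (a := a) h H.hu0 Z.hE Z.hlam Z.hlam0 hmem Z.hι Z.hv (u_mem H)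
  have hτ : IsAlgebraic (gn (A.map (UP.cst π)) (xg π fun j e => algebraMap E C (a j e)))
      (ι ⟨T, hACs mem_adE⟩) := by
    have h1 := TW.tau_alg_W H.hx hrel (τ := ι ⟨T, hACs mem_adE⟩) (fun i => alg_adjoin_iff.2 (halg _))
    rw [← adjoin_toSubfield_gn]
    exact h1
  have hD : gn (A.map (UP.cst π)) (xg π fun j e => algebraMap E C (a j e)) ≤ h.fsub Fv :=
    gn_le hS.hAD hS.hxD
  have h2 : ad (A.map (UP.cst π)) {ι ⟨T, hACs mem_adE⟩} ≤ acl (h.fsub Fv) := by
    refine ad_le (hS.hAD.trans le_acl) ?_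
    intro z hz
    rw [Set.mem_singleton_iff.1 hz]
    exact mem_acl.2 (isAlgebraic_mono hD hτ)
  exact acl_closed (isAlgebraic_mono h2 (halg c))

/-- the residues as a family of constants -/
noncomputable def res (W : J → ValuationSubring C) (lam : ∀ j, W j →+* E) (c : C) (j : J) : E :=
  open Classical in if hc : c ∈ W j then lam j ⟨c, hc⟩ else 0

theorem res_of_mem {W : J → ValuationSubring C} {lam : ∀ j, W j →+* E} {c : C} {j : J}
    (hc : c ∈ W j) : res W lam c j = lam j ⟨c, hc⟩ := by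
  unfold res
  rw [dif_pos hc]

theorem lc_res (W : J → ValuationSubring C) (lam : ∀ j, W j →+* E) (c : C) (j : J) :
    lc W lam c j = algebraMap E C (res W lam c j) := by
  unfold lc res
  split_ifs with hc
  · rfl
  · rw [map_zero]

theorem zero_iota_res {W : J → ValuationSubring C} {lam : ∀ j, W j →+* E}
    {ι : acl (ad A {T}) →+* S} (Z : Zero E A T h a u W lam ι) (c : acl (ad A {T})) :
    ι c = π fun j => algebraMap E C (res W lam c j) := by
  rw [Z.hι]
  congr 1
  funext j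
  exact lc_res W lam c j

/-- the residues of two families of zeros are conjugate -/
theorem ev_conj_pair (hGA : StmtGA) (H : Setup E A T q h a Fv u)
    {W W' : J → ValuationSubring C} {lam : ∀ j, W j →+* E} {lam' : ∀ j, W' j →+* E}
    {ι ι' : acl (ad A {T}) →+* S} (Z : Zero E A T h a u W lam ι) (Z' : Zero E A T h a u W' lam' ι') :
    ∀ᶠ j in (U : Filter J), ∃ σ : E ≃+* E, (∀ y ∈ (Fv j).comap (algebraMap E C), σ y = y) ∧
      σ (res W' lam' T j) = res W lam T j ∧ σ (res W' lam' q j) = res W lam q j := by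
  have hC0 : CharZero C := charZero_of_injective_algebraMap (algebraMap E C).injective
  have hSa : IsAlgClosed S := h.isAlgClosed
  have hT : T ∈ acl (ad A {T}) := le_acl mem_adE
  have hq : q ∈ acl (ad A {T}) := q_mem H
  have hD : ∀ (W : J → ValuationSubring C) (lam : ∀ j, W j →+* E) (ι : acl (ad A {T}) →+* S)
      (Z : Zero E A T h a u W lam ι) (c : ℕ), (π fun j => algebraMap E C
        (res W lam T j + c * res W lam q j)) = ι ⟨T, hT⟩ + c * ι ⟨q, hq⟩ := by
    intro W lam ι Z c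
    rw [zero_iota_res Z, zero_iota_res Z]
    have h1 : (fun j => algebraMap E C (res W lam T j + c * res W lam q j)) =
        (fun j => algebraMap E C (res W lam T j)) +
          (c : J → C) * fun j => algebraMap E C (res W lam q j) := by
      funext j
      rw [Pi.add_apply, Pi.mul_apply, map_add, map_mul, map_natCast]
      rfl
    rw [h1, map_add, map_mul, map_natCast]
  -- bounded degrees
  obtain ⟨n₁, hn₁⟩ := bdeg h H.hFv (g := res W lam T) (by
    have h1 := mem_acl.1 (zero_alg H Z ⟨T, hT⟩)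
    rwa [zero_iota_res Z] at h1)
  obtain ⟨n₂, hn₂⟩ := bdeg h H.hFv (g := res W lam q) (by
    have h1 := mem_acl.1 (zero_alg H Z ⟨q, hq⟩)
    rwa [zero_iota_res Z] at h1)
  have hc : ∀ c : ℕ, ∀ᶠ j in (U : Filter J), ∃ σ : E ≃+* E,
      (∀ y ∈ (Fv j).comap (algebraMap E C), σ y = y) ∧
      σ (res W' lam' T j + c * res W' lam' q j) = res W lam T j + c * res W lam q j := by
    intro c
    obtain ⟨n, hn⟩ := bdeg h H.hFv (g := fun j => res W lam T j + c * res W lam q j) (by
      rw [hD W lam ι Z c]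
      refine mem_acl.1 (add_mem (zero_alg H Z _) (mul_mem ?_ (zero_alg H Z _)))
      exact natCast_mem _ c)
    have h1 := ev_conj h (g := fun j => res W lam T j + c * res W lam q j)
      (g' := fun j => res W' lam' T j + c * res W' lam' q j) hn (by
        intro M hM
        rw [hD W lam ι Z c] at hM
        rw [hD W' lam' ι' Z' c]
        exact hGA (UP.cst π) (sd H) hT hq ι ι' (zero_sz H Z) (zero_sz H Z') c M hM)
    filter_upwards [h1, hn] with j k1 k2
    obtain ⟨P, hP0, -, hP⟩ := k2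
    obtain ⟨σ, hσ1, hσ2⟩ := exists_conj20 _ ⟨P, hP0, hP⟩ k1
    refine ⟨σ.symm, fun y hy => ?_, ?_⟩
    · rw [RingEquiv.symm_apply_eq, hσ1 y hy]
    · rw [RingEquiv.symm_apply_eq, hσ2]
  have hall : ∀ᶠ j in (U : Filter J), ∀ c ∈ Finset.range (n₁ * n₂ + 1), ∃ σ : E ≃+* E,
      (∀ y ∈ (Fv j).comap (algebraMap E C), σ y = y) ∧
      σ (res W' lam' T j + c * res W' lam' q j) = res W lam T j + c * res W lam q j :=
    (Filter.eventually_all_finset _).2 fun c _ => hc c
  filter_upwards [hall, hn₁, hn₂] with j k1 k2 k3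
  obtain ⟨P₁, hP₁0, hP₁n, hP₁⟩ := k2
  obtain ⟨P₂, hP₂0, hP₂n, hP₂⟩ := k3
  exact exists_conj_pair _ hP₁0 hP₂0 hP₁ hP₂ (N := n₁ * n₂ + 1)
    (Nat.lt_succ_iff.2 (Nat.mul_le_mul hP₁n hP₂n)) fun c hc => k1 c (Finset.mem_range.2 hc)

/-- the small field as constants -/
theorem exists_phi (hA : A ≤ (algebraMap E C).fieldRange) :
    ∃ φ : A →+* E, ∀ r, algebraMap E C (φ r) = r := by
  let e : E ≃+* (algebraMap E C).fieldRange :=
    RingEquiv.ofBijective (algebraMap E C).rangeRestrictField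
      ⟨(algebraMap E C).rangeRestrictField.injective, fun ⟨_, e, he⟩ => ⟨e, Subtype.ext he⟩⟩
  refine ⟨(e.symm : (algebraMap E C).fieldRange →+* E).comp (Subfield.inclusion hA), fun r => ?_⟩
  have h1 : e (e.symm (Subfield.inclusion hA r)) = Subfield.inclusion hA r :=
    e.apply_symm_apply _
  exact congrArg Subtype.val h1

/-- a place at which `T` is regular -/
theorem base_of (hT : Transcendental E T)
    (halg : ∀ z : C, IsAlgebraic (IntermediateField.adjoin E {T}) z) {W : ValuationSubring C}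
    (hE : ∀ e : E, algebraMap E C e ∈ W) {τ : E} (hτ : W.valuation (T - algebraMap E C τ) < 1) :
    Base E W (T - algebraMap E C τ) := by
  have hTne : T - algebraMap E C τ ≠ 0 := by
    intro h0
    apply hT
    rw [sub_eq_zero.1 h0]
    exact isAlgebraic_algebraMap τ
  have hTtr : Transcendental E (T - algebraMap E C τ) := by
    intro h0
    apply hT
    have h1 := h0.add (isAlgebraic_algebraMap (A := C) τ)
    rwa [sub_add_cancel] at h1
  exact ⟨hE, hTne, (W.mem_nonunits_iff).2 hτ, alg_of_transcendental hTtr halg⟩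

/-- **Block H3J** from the block GA. -/
theorem h3J (hGA : StmtGA) : StmtH3J := by
  classical
  intro E C _ _ _ _ _ _ A T q m J U S _ π h a Fv u H
  have hC0 : CharZero C := charZero_of_injective_algebraMap (algebraMap E C).injective
  have hTCs : T ∈ acl (ad A {T}) := le_acl mem_adE
  have hqCs : q ∈ acl (ad A {T}) := q_mem H
  have hACs : A ≤ acl (ad A {T}) := le_ad.trans le_acl
  by_contra hcon
  rw [← Ultrafilter.eventually_not] at hcon
  -- the elements are not constant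
  have htr : ∀ᶠ j in (U : Filter J), Transcendental E (gv a u j) := by
    have h1 := ev_transc H.hA h H.hx (u_mem H) H.hT (i₁ := (0 : Fin (m + 1))) H.hu1
    exact h1
  -- the choice
  have hch : ∀ j, ∃ W W' : ValuationSubring C, (∀ e : E, algebraMap E C e ∈ W) ∧ W ≠ ⊤ ∧
      (∀ e : E, algebraMap E C e ∈ W') ∧ W' ≠ ⊤ ∧
      ((Transcendental E (gv a u j) ∧ ¬ ∀ W W' : ValuationSubring C, IsZ E (gv a u j) W →
        IsZ E (gv a u j) W' → ∃ γ : C ≃+* C, (∀ z ∈ ad (Fv j) {T, q}, γ z = z) ∧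
          ∀ z, γ z ∈ W ↔ z ∈ W') → W.valuation (gv a u j) < 1 ∧ W'.valuation (gv a u j) < 1 ∧
        ¬ ∃ γ : C ≃+* C, (∀ z ∈ ad (Fv j) {T, q}, γ z = z) ∧ ∀ z, γ z ∈ W ↔ z ∈ W') := by
    intro j
    by_cases hj : Transcendental E (gv a u j) ∧ ¬ ∀ W W' : ValuationSubring C,
        IsZ E (gv a u j) W → IsZ E (gv a u j) W' → ∃ γ : C ≃+* C,
          (∀ z ∈ ad (Fv j) {T, q}, γ z = z) ∧ ∀ z, γ z ∈ W ↔ z ∈ W'
    · obtain ⟨hj1, hj2⟩ := id hj
      push Not at hj2
      obtain ⟨W, W', hW, hW', hno⟩ := hj2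
      have hv0 : gv a u j ≠ 0 := by
        intro h0
        rw [h0] at hj1
        exact hj1 isAlgebraic_zero
      have htop : ∀ W : ValuationSubring C, IsZ E (gv a u j) W → W ≠ ⊤ := by
        intro W hW h0
        have h1 : (gv a u j)⁻¹ ∈ W := by rw [h0]; trivial
        have h2 := (W.mem_nonunits_iff).2 hW.lt
        rcases (ValuationSubring.mem_nonunits_iff_or _).1 h2 with h3 | h3
        · exact hv0 h3
        · exact h3 h1
      refine ⟨W, W', hW.const, htop W hW, hW'.const, htop W' hW', fun _ => ⟨hW.lt, hW'.lt, ?_⟩⟩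
      rintro ⟨γ, hγ1, hγ2⟩
      obtain ⟨z, hz⟩ := hno γ hγ1
      have h1 := hγ2 z
      tauto
    · obtain ⟨W, hW⟩ := exists_place H.hT H.halg 0
      have htop : W ≠ ⊤ := by
        intro h0
        rw [map_zero, sub_zero] at hW
        have h1 : T⁻¹ ∈ W := by rw [h0]; trivial
        rcases (ValuationSubring.mem_nonunits_iff_or _).1 hW.t_mem with h3 | h3
        · exact hW.t_ne h3
        · exact h3 h1
      exact ⟨W, W, hW.const, htop, hW.const, htop, fun h0 => absurd h0 hj⟩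
  choose W W' hE hWt hE' hWt' hbad using hch
  have hB : ∀ j, ∃ t, Base E (W j) t := fun j => exists_base_of H.halg (hWt j) (hE j)
  have hB' : ∀ j, ∃ t, Base E (W' j) t := fun j => exists_base_of H.halg (hWt' j) (hE' j)
  choose t ht using hB
  choose t' ht' using hB'
  choose lam hlam hlam0 using fun j => exists_lam (ht j)
  choose lam' hlam' hlam0' using fun j => exists_lam (ht' j)
  have hb : ∀ᶠ j in (U : Filter J), (W j).valuation (gv a u j) < 1 ∧
      (W' j).valuation (gv a u j) < 1 ∧ ¬ ∃ γ : C ≃+* C, (∀ z ∈ ad (Fv j) {T, q}, γ z = z) ∧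
        ∀ z, γ z ∈ W j ↔ z ∈ W' j := by
    filter_upwards [hcon, htr] with j h1 h2
    exact hbad j ⟨h2, h1⟩
  have hv : ∀ᶠ j in (U : Filter J), (W j).valuation (gv a u j) < 1 := hb.mono fun j hj => hj.1
  have hv' : ∀ᶠ j in (U : Filter J), (W' j).valuation (gv a u j) < 1 := hb.mono fun j hj => hj.2.1
  obtain ⟨ι, Z⟩ := exists_zero H hE hlam hlam0 hv
  obtain ⟨ι', Z'⟩ := exists_zero H hE' hlam' hlam0' hv'
  -- the equation of `q`
  obtain ⟨φ, hφ⟩ := exists_phi H.hA
  let iA : Algebra A E := φ.toAlgebra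
  have sA : IsScalarTower A E C := IsScalarTower.of_algebraMap_eq fun r => (hφ r).symm
  obtain ⟨G, hG, hG'⟩ := exists_eqn (F := A) (θ := q) (trA H) (alg_adjoin_iff.2 H.hq)
  have hevC : ∀ R : A[X][X], ev2 A T q R ∈ acl (ad A {T}) := fun R => ev2_mem hACs hTCs hqCs R
  have hmem : ∀ c ∈ acl (ad A {T}), ∀ᶠ j in (U : Filter J), c ∈ W j := fun c hc =>
    ev_mem_W H.hA h H.hx H.hu0 (u_mem H) hE hv hc
  have hmem' : ∀ c ∈ acl (ad A {T}), ∀ᶠ j in (U : Filter J), c ∈ W' j := fun c hc =>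
    ev_mem_W H.hA h H.hx H.hu0 (u_mem H) hE' hv' hc
  have hunit : ∀ᶠ j in (U : Filter J), (W j).valuation (ev2 A T q (derivative G)) = 1 :=
    ev_unit_W H.hA h H.hx H.hu0 (u_mem H) hE hv (hevC _) hG'
  obtain ⟨j, k1, k2, k3, k4, k5, k6, k7⟩ := ((ev_conj_pair hGA H Z Z').and (hb.and (hunit.and
    ((hmem T hTCs).and ((hmem q hqCs).and ((hmem' T hTCs).and (hmem' q hqCs))))))).exists
  obtain ⟨σ, hσK, hσT, hσq⟩ := k1
  apply k2.2.2
  rw [res_of_mem k4, res_of_mem k6] at hσT
  rw [res_of_mem k5, res_of_mem k7] at hσq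
  have hT1 : (W j).valuation (T - algebraMap E C (lam j ⟨T, k4⟩)) < 1 :=
    lam_sub (hE j) (hlam j) (hlam0 j) ⟨T, k4⟩
  have hT1' : (W' j).valuation (T - algebraMap E C (lam' j ⟨T, k6⟩)) < 1 :=
    lam_sub (hE' j) (hlam' j) (hlam0' j) ⟨T, k6⟩
  have hq1 : (W j).valuation (q - algebraMap E C (lam j ⟨q, k5⟩)) < 1 :=
    lam_sub (hE j) (hlam j) (hlam0 j) ⟨q, k5⟩
  have hq1' : (W' j).valuation (q - algebraMap E C (lam' j ⟨q, k7⟩)) < 1 :=
    lam_sub (hE' j) (hlam' j) (hlam0' j) ⟨q, k7⟩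
  obtain ⟨γ, hγ1, hγ2, hγ3⟩ := exists_gamma1 (base_of H.hT H.halg (hE j) hT1)
    (base_of H.hT H.halg (hE' j) hT1') H.hT H.halg σ hσT
  have hγF : ∀ r ∈ Fv j, γ r = r := by
    intro r hr
    obtain ⟨e, rfl⟩ := H.hFv j hr
    rw [hγ2, hσK e hr]
  have hγA : ∀ r : A, γ (algebraMap A C r) = algebraMap A C r := fun r => hγF r (H.hAFv j r.2)
  have hAW : ∀ r : A, algebraMap A C r ∈ W j := by
    intro r
    obtain ⟨e, he⟩ := H.hFv j (H.hAFv j r.2)
    change (r : C) ∈ W j
    rw [← he]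
    exact hE j e
  have hlt : ∀ z, (W' j).valuation z < 1 → (W j).valuation (γ z) < 1 := by
    intro z hz
    rw [← ValuationSubring.mem_nonunits_iff, ValuationSubring.mem_nonunits_iff_or] at *
    rcases hz with hz | hz
    · left
      rw [hz, map_zero]
    · right
      rw [← map_inv₀, hγ1]
      exact hz
  have hγq : γ q = q := by
    refine root_unique (R := A) hAW k4 k5 hG k3 ?_ ?_
    · have h1 := map_ev2 (γ : C →+* C) hγA T q G
      rw [hG, map_zero] at h1
      rw [h1]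
      congr 1
      exact congrArg₂ _ hγ3.symm rfl
    · have h1 := hlt _ hq1'
      rw [map_sub, hγ2, hσq] at h1
      have h3 := Valuation.map_sub_lt _ h1 hq1
      rwa [sub_sub_sub_cancel_right] at h3
  refine ⟨γ, ?_, hγ1⟩
  have h1 : ad (Fv j) {T, q} ≤ (γ : C →+* C).eqLocusField (RingHom.id C) := by
    refine ad_le hγF ?_
    rintro y (hy | hy)
    · rw [hy]
      exact hγ3
    · rw [Set.mem_singleton_iff.1 hy]
      exact hγq
  exact fun z hz => h1 hz

end Pool.Agent.FFX.H20
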