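import Pool.Agent.Helper10.FF.Defs

/-!
# Project FF, field side, block H3J: preparations
-/

set_option autoImplicit false

universe u

namespace Pool.Agent.FFX.H20

open Polynomial Pool.Agent.LT Pool.Agent.SC Pool.Agent.Helper37.UL UL Pool.Agent.OPN Pool.Agent.OPG _root_.TW Pool.Agent.TWT

/-- lifting of automorphisms of the constants, two places -/
theorem exists_gamma1 {E Ω : Type u} [Field E] [Field Ω] [Algebra E Ω] [CharZero E] [IsAlgClosed Ω]
    {W W' : ValuationSubring Ω} {T : Ω} {τ τ' : E} (hb : Base E W (T - algebraMap E Ω τ))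
    (hb' : Base E W' (T - algebraMap E Ω τ'))
    (hTtr : Transcendental E T) (halg : ∀ z : Ω, IsAlgebraic (IntermediateField.adjoin E {T}) z)
    (σ : E ≃+* E) (hσ : σ τ' = τ) :
    ∃ γ : Ω ≃+* Ω, (∀ z, γ z ∈ W ↔ z ∈ W') ∧ (∀ e, γ (algebraMap E Ω e) = algebraMap E Ω (σ e)) ∧
      γ T = T := by
  obtain ⟨ρ, hρ1, hρ2⟩ := exists_rho hTtr halg σ
  have hΩ0 : CharZero Ω := charZero_of_injective_algebraMap (algebraMap E Ω).injective
  set u : Ω := T - algebraMap E Ω τ with hu
  set u' : Ω := T - algebraMap E Ω τ' with hu'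
  have hρu : ρ u' = u := by rw [hu, hu', map_sub, hρ2, hρ1, hσ]
  have hadj : IntermediateField.adjoin E {T} = IntermediateField.adjoin E {u'} := by
    apply le_antisymm
    · rw [IntermediateField.adjoin_simple_le_iff]
      have h1 : T = u' + algebraMap E Ω τ' := by rw [hu']; ring
      rw [h1]
      exact add_mem (IntermediateField.mem_adjoin_simple_self _ _)
        (IntermediateField.algebraMap_mem _ _)
    · rw [IntermediateField.adjoin_simple_le_iff]
      exact sub_mem (IntermediateField.mem_adjoin_simple_self _ _)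
        (IntermediateField.algebraMap_mem _ _)
  rw [hadj] at halg
  have h1 : Algebra.IsAlgebraic (IntermediateField.adjoin E {u'}) Ω := ⟨halg⟩
  have h2 : IsAlgClosure (IntermediateField.adjoin E {u'}) Ω := ⟨inferInstance, inferInstance⟩
  have h3 : IsGalois (IntermediateField.adjoin E {u'}) Ω := inferInstance
  have hlt : W'.valuation u' < 1 := (W'.mem_nonunits_iff).1 hb'.t_mem
  have hlt' : (W.comap (ρ : Ω →+* Ω)).valuation u' < 1 := by
    have h4 : u ∈ W.nonunits := hb.t_mem
    rw [ValuationSubring.mem_nonunits_iff_or] at h4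
    rw [← ValuationSubring.mem_nonunits_iff, ValuationSubring.mem_nonunits_iff_or]
    right
    rcases h4 with h4 | h4
    · exact absurd h4 hb.t_ne
    · intro h5
      apply h4
      have h6 : ρ u'⁻¹ ∈ W := h5
      rwa [map_inv₀, hρu] at h6
  obtain ⟨σ', hσ'⟩ := exists_conj_val (L := IntermediateField.adjoin E {u'}) W'
    (W.comap (ρ : Ω →+* Ω)) (fun c =>
      mem_iff_mem (L := E) hb'.t_ne c.2 hb'.const hlt (fun e => by
        change ρ (algebraMap E Ω e) ∈ W
        rw [hρ1]
        exact hb.const _) hlt')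
  refine ⟨σ'.toRingEquiv.trans ρ, fun z => hσ' z, fun e => ?_, ?_⟩
  · change ρ (σ' (algebraMap E Ω e)) = _
    have h4 : σ' (algebraMap E Ω e) = algebraMap E Ω e :=
      σ'.commutes (algebraMap E (IntermediateField.adjoin E {u'}) e)
    rw [h4, hρ1]
  · change ρ (σ' T) = T
    have h4 : σ' T = T := by
      have h5 : T ∈ IntermediateField.adjoin E {u'} := by
        rw [← hadj]
        exact IntermediateField.mem_adjoin_simple_self _ _
      exact σ'.commutes ⟨T, h5⟩
    rw [h4, hρ2]

/-- conjugate elements of an algebraically closed field -/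
theorem exists_conj20 {C : Type u} [Field C] [IsAlgClosed C] [CharZero C] (K : Subfield C) {x y : C}
    (hx : IsAlgebraic K x) (h : aeval y (minpoly K x) = 0) :
    ∃ τ : C ≃+* C, (∀ a ∈ K, τ a = a) ∧ τ x = y := by
  have hcl : IsAlgClosure K (algebraicClosure K C) := algebraicClosure.isAlgClosure K C
  have hn : Normal K (algebraicClosure K C) := IsAlgClosure.normal K _
  have hy : IsAlgebraic K y := ⟨minpoly K x, minpoly.ne_zero hx.isIntegral, h⟩
  let x' : algebraicClosure K C := ⟨x, mem_algebraicClosure_iff.2 hx⟩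
  let y' : algebraicClosure K C := ⟨y, mem_algebraicClosure_iff.2 hy⟩
  have hxx : minpoly K x' = minpoly K x :=
    minpoly.algebraMap_eq (algebraMap (algebraicClosure K C) C).injective x' |>.symm
  have h1 : aeval y' (minpoly K x') = 0 := by
    rw [hxx]
    apply (algebraMap (algebraicClosure K C) C).injective
    rw [map_zero, ← aeval_algebraMap_apply]
    exact h
  have hx' : IsAlgebraic K x' := (algebraicClosure.isAlgebraic K C).isAlgebraic x'
  obtain ⟨σ₀, hσ₀⟩ := minpoly.exists_algEquiv_of_root hx' h1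
  obtain ⟨σ, hσ⟩ : ∃ σ : algebraicClosure K C ≃ₐ[K] algebraicClosure K C, σ x' = y' :=
    ⟨σ₀.symm, by rw [← hσ₀, AlgEquiv.symm_apply_apply]⟩
  obtain ⟨τ, hτ, -⟩ := Pool.Agent.UT.extend_aut' (K := K) (σ : algebraicClosure K C ≃+* _)
    (s := ∅) (algebraicIndependent_empty_type)
  refine ⟨τ, fun a ha => ?_, ?_⟩
  · have h2 := hτ (algebraMap K (algebraicClosure K C) ⟨a, ha⟩)
    have h3 : (σ : algebraicClosure K C ≃+* algebraicClosure K C)
        (algebraMap K (algebraicClosure K C) ⟨a, ha⟩) =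
          algebraMap K (algebraicClosure K C) ⟨a, ha⟩ := σ.commutes _
    rw [h3] at h2
    exact h2
  · have h2 := hτ x'
    have h3 : (σ : algebraicClosure K C ≃+* algebraicClosure K C) x' = y' := hσ
    rw [h3] at h2
    exact h2

/-- conjugate pairs, from the conjugacy of sufficiently many linear combinations -/
theorem exists_conj_pair {E : Type*} [Field E] [CharZero E] (K : Subfield E) {τ l τ' l' : E}
    {M₁ M₂ : K[X]} (hM₁ : M₁ ≠ 0) (hM₂ : M₂ ≠ 0) (h₁ : aeval τ M₁ = 0) (h₂ : aeval l M₂ = 0)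
    {N : ℕ} (hN : M₁.natDegree * M₂.natDegree < N)
    (hc : ∀ c < N, ∃ σ : E ≃+* E, (∀ y ∈ K, σ y = y) ∧ σ (τ' + c * l') = τ + c * l) :
    ∃ σ : E ≃+* E, (∀ y ∈ K, σ y = y) ∧ σ τ' = τ ∧ σ l' = l := by
  classical
  choose σ hσ hσ' using hc
  have hfix : ∀ c (hc : c < N), ∀ y ∈ K, (σ c hc).symm y = y := by
    intro c hc y hy
    rw [RingEquiv.symm_apply_eq, hσ c hc y hy]
  have hroot : ∀ (M : K[X]), M ≠ 0 → ∀ (z : E), aeval z M = 0 → ∀ c (hc : c < N),
      (σ c hc).symm z ∈ (M.map (algebraMap K E)).roots.toFinset := by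
    intro M hM z hz c hc
    have h1 : ((σ c hc).symm : E →+* E).comp (algebraMap K E) = algebraMap K E := by
      apply RingHom.ext
      intro a
      exact hfix c hc _ a.2
    rw [Multiset.mem_toFinset, mem_roots (Polynomial.map_ne_zero hM), IsRoot.def, eval_map]
    have h2 := congrArg ((σ c hc).symm : E →+* E) hz
    rw [aeval_def, hom_eval₂, h1, map_zero] at h2
    exact h2
  let A := (M₁.map (algebraMap K E)).roots.toFinset ×ˢ (M₂.map (algebraMap K E)).roots.toFinset
  let f : ℕ → E × E := fun c => if hc : c < N then ((σ c hc).symm τ, (σ c hc).symm l) else (0, 0)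
  have hf : ∀ c (hc : c < N), f c = ((σ c hc).symm τ, (σ c hc).symm l) := fun c hc => dif_pos hc
  have hcard : A.card < (Finset.range N).card := by
    rw [Finset.card_range, Finset.card_product]
    refine lt_of_le_of_lt (Nat.mul_le_mul ?_ ?_) hN
    · refine (Multiset.toFinset_card_le _).trans ((card_roots' _).trans ?_)
      rw [natDegree_map]
    · refine (Multiset.toFinset_card_le _).trans ((card_roots' _).trans ?_)
      rw [natDegree_map]
  obtain ⟨c, hc, c', hc', hne, heq⟩ := Finset.exists_ne_map_eq_of_card_lt_of_maps_to hcard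
    (f := f) (by
      intro c hc
      have hc := Finset.mem_range.1 hc
      change f c ∈ A
      rw [hf c hc]
      exact Finset.mem_product.2 ⟨hroot M₁ hM₁ τ h₁ c hc, hroot M₂ hM₂ l h₂ c hc⟩)
  rw [Finset.mem_range] at hc hc'
  rw [hf c hc, hf c' hc', Prod.mk.injEq] at heq
  obtain ⟨e1, e2⟩ := heq
  have k1 : τ' + c * l' = (σ c hc).symm τ + c * (σ c hc).symm l := by
    have h1 : τ' + c * l' = (σ c hc).symm (τ + c * l) := by
      rw [← hσ' c hc, RingEquiv.symm_apply_apply]
    rw [h1, map_add, map_mul, map_natCast]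
  have k2 : τ' + c' * l' = (σ c hc).symm τ + c' * (σ c hc).symm l := by
    have h1 : τ' + c' * l' = (σ c' hc').symm (τ + c' * l) := by
      rw [← hσ' c' hc', RingEquiv.symm_apply_apply]
    rw [h1, map_add, map_mul, map_natCast, e1, e2]
  have k3 : ((c : E) - c') * (l' - (σ c hc).symm l) = 0 := by linear_combination k1 - k2
  have hcc : (c : E) - c' ≠ 0 := by
    rw [sub_ne_zero]
    exact fun h => hne (Nat.cast_injective h)
  have k4 : l' = (σ c hc).symm l := sub_eq_zero.1 ((mul_eq_zero.1 k3).resolve_left hcc)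
  have k5 : τ' = (σ c hc).symm τ := by rw [← k4] at k1; linear_combination k1
  refine ⟨σ c hc, hσ c hc, ?_, ?_⟩
  · rw [k5, RingEquiv.apply_symm_apply]
  · rw [k4, RingEquiv.apply_symm_apply]

section germs

variable {E C : Type u} [Field E] [Field C] [Algebra E C] {J : Type u}
  {U : Ultrafilter J} {S : Type u} [Field S] {π : (J → C) →+* S} (h : UP U π)
  {Fv : J → Subfield C} (hFv : ∀ j, Fv j ≤ (algebraMap E C).fieldRange)

include hFv in
/-- bounded degrees -/
theorem bdeg {g : J → E} (hg : IsAlgebraic (h.fsub Fv) (π fun j => algebraMap E C (g j))) :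
    ∃ n : ℕ, ∀ᶠ j in (U : Filter J), ∃ P : ((Fv j).comap (algebraMap E C))[X], P ≠ 0 ∧
      P.natDegree ≤ n ∧ aeval (g j) P = 0 := by
  classical
  obtain ⟨n, c, hc, hc0, hid⟩ := isAlgebraic_iff.1 hg
  obtain ⟨f, hf1, hf2⟩ := h.lift_familyV hc
  obtain ⟨l, hl⟩ := Function.ne_iff.1 hc0
  have h1 : ∀ᶠ a in (U : Filter J), f l a ≠ 0 := by
    rw [Pi.zero_apply, ← hf2, h.ne0] at hl
    exact hl
  have h2 : ∀ᶠ a in (U : Filter J), ∑ i : Fin (n + 1), f i a * algebraMap E C (g a) ^ (i : ℕ) = 0 := by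
    have h3 : (π fun a => ∑ i : Fin (n + 1), f i a * algebraMap E C (g a) ^ (i : ℕ)) = 0 := by
      rw [← hid]
      have h4 : (fun a => ∑ i : Fin (n + 1), f i a * algebraMap E C (g a) ^ (i : ℕ)) =
          ∑ i : Fin (n + 1), f i * (fun a => algebraMap E C (g a)) ^ (i : ℕ) := by
        funext a
        rw [Finset.sum_apply]
        rfl
      rw [h4, map_sum]
      refine Finset.sum_congr rfl fun i _ => ?_
      rw [map_mul, map_pow, hf2]
    exact (h.eq0 _).1 h3
  refine ⟨n, ?_⟩
  filter_upwards [h1, h2] with j h1 h2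
  choose e he using fun i => hFv j (hf1 i j)
  have heK : ∀ i, e i ∈ (Fv j).comap (algebraMap E C) := by
    intro i
    rw [Subfield.mem_comap, he]
    exact hf1 i j
  refine ⟨∑ i : Fin (n + 1), Polynomial.C (⟨e i, heK i⟩ : (Fv j).comap (algebraMap E C)) * X ^ (i : ℕ),
    ?_, ?_, ?_⟩
  · intro h0
    apply h1
    have h5 := congrArg (fun q => q.coeff l) h0
    simp only [finsetSum_coeff, coeff_C_mul, coeff_X_pow, coeff_zero] at h5
    rw [Finset.sum_eq_single l] at h5
    · simp only [if_true, mul_one] at h5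
      rw [← he]
      have h6 : e l = 0 := congrArg Subtype.val h5
      rw [h6, map_zero]
    · intro i _ hi
      rw [if_neg, mul_zero]
      intro h6
      exact hi (Fin.ext h6.symm)
    · intro h6
      exact absurd (Finset.mem_univ _) h6
  · refine natDegree_sum_le_of_forall_le _ _ fun i _ => ?_
    exact (natDegree_C_mul_X_pow_le _ _).trans (Nat.lt_succ_iff.1 i.2)
  · apply (algebraMap E C).injective
    rw [map_zero, ← h2, map_sum, map_sum]
    refine Finset.sum_congr rfl fun i _ => ?_
    rw [map_mul, aeval_C, map_pow, aeval_X, map_mul, map_pow]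
    congr 1
    exact he i

/-- **Conjugate germs**: the minimal polynomials vanish. -/
theorem ev_conj {g g' : J → E} {n : ℕ}
    (hn : ∀ᶠ j in (U : Filter J), ∃ P : ((Fv j).comap (algebraMap E C))[X], P ≠ 0 ∧
      P.natDegree ≤ n ∧ aeval (g j) P = 0)
    (hM : ∀ M : (h.fsub Fv)[X], aeval (π fun j => algebraMap E C (g j)) M = 0 →
      aeval (π fun j => algebraMap E C (g' j)) M = 0) :
    ∀ᶠ j in (U : Filter J), aeval (g' j) (minpoly ((Fv j).comap (algebraMap E C)) (g j)) = 0 := by
  classical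
  let q : ∀ j, ((Fv j).comap (algebraMap E C))[X] := fun j =>
    minpoly ((Fv j).comap (algebraMap E C)) (g j)
  let f : ℕ → J → C := fun i j => algebraMap E C ((q j).coeff i : (Fv j).comap (algebraMap E C))
  have hf : ∀ i j, f i j ∈ Fv j := fun i j => ((q j).coeff i).2
  let M : (h.fsub Fv)[X] := ∑ i : Fin (n + 1),
    Polynomial.C (⟨π (f i), ⟨f i, hf i, rfl⟩⟩ : h.fsub Fv) * X ^ (i : ℕ)
  have hev : ∀ g₁ : J → E, aeval (π fun j => algebraMap E C (g₁ j)) M =
      π (fun j => ∑ i : Fin (n + 1), f i j * algebraMap E C (g₁ j) ^ (i : ℕ)) := by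
    intro g₁
    have h4 : (fun j => ∑ i : Fin (n + 1), f i j * algebraMap E C (g₁ j) ^ (i : ℕ)) =
        ∑ i : Fin (n + 1), f i * (fun j => algebraMap E C (g₁ j)) ^ (i : ℕ) := by
      funext j
      rw [Finset.sum_apply]
      rfl
    rw [h4, map_sum, map_sum]
    refine Finset.sum_congr rfl fun i _ => ?_
    rw [map_mul, aeval_C, map_pow, aeval_X, map_mul, map_pow]
    rfl
  have hdeg : ∀ᶠ j in (U : Filter J), (q j).natDegree < n + 1 := by
    filter_upwards [hn] with j hj
    obtain ⟨P, hP0, hPn, hPg⟩ := hj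
    have h1 : q j ∣ P := minpoly.dvd _ _ hPg
    exact Nat.lt_succ_iff.2 ((natDegree_le_of_dvd h1 hP0).trans hPn)
  have hsum : ∀ g₁ : J → E, ∀ᶠ j in (U : Filter J),
      ∑ i : Fin (n + 1), f i j * algebraMap E C (g₁ j) ^ (i : ℕ) =
        algebraMap E C (aeval (g₁ j) (q j)) := by
    intro g₁
    filter_upwards [hdeg] with j hj
    rw [aeval_eq_sum_range' hj, map_sum, Finset.sum_range]
    refine Finset.sum_congr rfl fun i _ => ?_
    rw [Algebra.smul_def, map_mul, map_pow]
    rfl
  have h1 : aeval (π fun j => algebraMap E C (g j)) M = 0 := by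
    rw [hev, h.eq0]
    filter_upwards [hsum g] with j hj
    rw [hj, minpoly.aeval, map_zero]
  have h2 := hM M h1
  rw [hev, h.eq0] at h2
  filter_upwards [h2, hsum g'] with j k1 k2
  rw [k2] at k1
  exact (map_eq_zero _).1 k1

end germs

end Pool.Agent.FFX.H20
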