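import Pool.Agent.Helper20.FF.Tr
import Pool.Agent.Helper20.FF.C11g
import Pool.Agent.Helper37.TWU.K
import Pool.Agent.Helper13.FF.Defs

/-!
# Project FF, block LOC: the local properties of the action of a section
-/

set_option autoImplicit false
set_option linter.unusedSectionVars false

namespace Pool.Agent.FFL20

open VC IntermediateField Polynomial Pool.Agent.SC Pool.Agent.Helper91.Sect Pool.Agent
open Pool.Agent.L (L0)
open Pool.Agent.LN (Geo Act GoodCurve)
open Pool.Agent.LT (UU toU actU GoodRed rootsB)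
open Pool.Agent.GC (LL CycE GoodPoly)
open Pool.Agent.M (Moves OverPl inL0)
open Pool.Agent.ML (BPl)
open Pool.Agent.FFS (OverU LocA HypC GoodW)

section val

variable {L M : Type*} [Field L] [Field M] (f : L →+* M) (W : ValuationSubring M)

theorem comap_le_iff20 {a b : L} (hb : b ≠ 0) :
    (W.comap f).valuation a ≤ (W.comap f).valuation b ↔ W.valuation (f a) ≤ W.valuation (f b) := by
  have hb1 : (W.comap f).valuation b ≠ 0 := (Valuation.ne_zero_iff _).2 hb
  have hb2 : W.valuation (f b) ≠ 0 := (Valuation.ne_zero_iff _).2 ((map_ne_zero f).2 hb)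
  rw [← div_le_one₀ (zero_lt_iff.2 hb1), ← map_div₀, ← div_le_one₀ (zero_lt_iff.2 hb2),
    ← map_div₀, ← map_div₀, ValuationSubring.valuation_le_one_iff,
    ValuationSubring.valuation_le_one_iff, ValuationSubring.mem_comap]

theorem comap_eq_iff20 {a b : L} (ha : a ≠ 0) (hb : b ≠ 0) :
    (W.comap f).valuation a = (W.comap f).valuation b ↔ W.valuation (f a) = W.valuation (f b) := by
  rw [le_antisymm_iff, le_antisymm_iff, comap_le_iff20 f W hb, comap_le_iff20 f W ha]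

theorem comap_nonunits20 {a : L} : a ∈ (W.comap f).nonunits ↔ f a ∈ W.nonunits := by
  rw [ValuationSubring.mem_nonunits_iff_or, ValuationSubring.mem_nonunits_iff_or,
    ValuationSubring.mem_comap, map_inv₀, map_eq_zero]

theorem comap_ne_top20 {f : L →+* M} (hf : Function.Surjective f) {W : ValuationSubring M}
    (hW : W ≠ ⊤) : W.comap f ≠ ⊤ := by
  intro h
  apply hW
  rw [eq_top_iff]
  intro z _
  obtain ⟨w, rfl⟩ := hf z
  have h1 : w ∈ W.comap f := by rw [h]; trivial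
  exact h1

end val

theorem map_adjoin20 {A B M N : Type*} [Field A] [Field B] [Field M] [Field N] [Algebra A M]
    [Algebra B N] (e : A → B) (ρ : M →+* N)
    (hρ : ∀ a, ρ (algebraMap A M a) = algebraMap B N (e a)) {X : Set M}
    (T : IntermediateField B N) (hX : ∀ x ∈ X, ρ x ∈ T) {z : M}
    (hz : z ∈ IntermediateField.adjoin A X) : ρ z ∈ T := by
  have h1 : (IntermediateField.adjoin A X).toSubfield ≤ T.toSubfield.comap ρ := by
    rw [IntermediateField.adjoin_toSubfield, Subfield.closure_le]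
    rintro _ (⟨a, rfl⟩ | hx)
    · change ρ (algebraMap A M a) ∈ T
      rw [hρ]
      exact T.algebraMap_mem _
    · exact hX _ hx
  exact h1 hz

section tr

variable {k K0 Kc E U : Type} [Field k] [CharZero k] [Field K0] [Algebra k K0] [Field Kc]
  [Algebra k Kc] [Algebra K0 Kc] [IsScalarTower k K0 Kc]
  [Field E] [Field U] [Algebra k E] [Algebra E U] [Algebra K0 U] [Algebra k U]
  [IsScalarTower k E U] [IsScalarTower k K0 U]
  {s : GaloisSection k Kc} {ρ : UU k Kc ≃+* U} {e : kbar k Kc ≃ₐ[k] E}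
  {Φ : (E ≃ₐ[k] E) →* (U ≃+* U)} {y : Kc} {r : U}

theorem Tr.const' (T : Tr (K0 := K0) s ρ e Φ y r) (z : E) :
    ρ.symm (algebraMap E U z) = algebraMap (kbar k Kc) (UU k Kc) (e.symm z) := by
  rw [RingEquiv.symm_apply_eq, T.const, AlgEquiv.apply_symm_apply]

theorem Tr.base' (T : Tr (K0 := K0) s ρ e Φ y r) (x : K0) :
    ρ.symm (algebraMap K0 U x) = toU (k := k) (K := Kc) (algebraMap K0 Kc x) := by
  rw [RingEquiv.symm_apply_eq, T.base]

theorem Tr.mem_LL (T : Tr (K0 := K0) s ρ e Φ y r) {z : U} (hz : z ∈ L0 E K0 (U := U)) :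
    ρ.symm z ∈ LL k K0 Kc := by
  refine map_adjoin20 (fun z => e.symm z) (ρ.symm : U →+* UU k Kc) T.const' _ ?_ hz
  rintro _ ⟨x, rfl⟩
  change ρ.symm (algebraMap K0 U x) ∈ LL k K0 Kc
  rw [T.base']
  exact GC.toU_mem_LL x

theorem Tr.root' (T : Tr (K0 := K0) s ρ e Φ y r) :
    ∃ d : kbar k Kc, d ≠ 0 ∧ ρ.symm r = algebraMap (kbar k Kc) (UU k Kc) d * toU (k := k) (K := Kc) y := by
  obtain ⟨d, hd, h1⟩ := T.root
  refine ⟨e.symm d⁻¹, ?_, ?_⟩
  · rw [Ne, EmbeddingLike.map_eq_zero_iff]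
    exact inv_ne_zero hd
  · rw [RingEquiv.symm_apply_eq, map_mul, ← h1, T.const, AlgEquiv.apply_symm_apply, ← mul_assoc,
      ← map_mul, inv_mul_cancel₀ hd, map_one, one_mul]

theorem Tr.mem_MM (T : Tr (K0 := K0) s ρ e Φ y r) {z : U} (hz : z ∈ L.MM E K0 r) :
    ρ.symm z ∈ LT.MM k Kc := by
  refine map_adjoin20 (fun z => e.symm z) (ρ.symm : U →+* UU k Kc) T.const' _ ?_ hz
  rintro _ (⟨x, rfl⟩ | hx)
  · change ρ.symm (algebraMap K0 U x) ∈ LT.MM k Kc
    rw [T.base']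
    exact GC.LL_le_MM (GC.toU_mem_LL x)
  · rw [Set.mem_singleton_iff.1 hx]
    obtain ⟨d, -, hd⟩ := T.root'
    change ρ.symm r ∈ LT.MM k Kc
    rw [hd]
    exact mul_mem ((LT.MM k Kc).algebraMap_mem d) (LT.toU_mem y)

theorem Tr.mem_MM' {n : ℕ} {c : k} {g x z₀ : K0} {f : k[X]} {S : Finset k}
    (T : Tr (K0 := K0) s ρ e Φ y r) (hS : CycE n c g x z₀ f S y) {z : UU k Kc}
    (hz : z ∈ LT.MM k Kc) : ρ z ∈ L.MM E K0 r := by
  have hL : ∀ z ∈ LL k K0 Kc, ρ z ∈ L.MM E K0 r := by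
    intro z hz
    refine map_adjoin20 (fun z => e z) (ρ : UU k Kc →+* U) T.const _ ?_ hz
    rintro _ ⟨x, rfl⟩
    change ρ (toU (k := k) (K := Kc) (algebraMap K0 Kc x)) ∈ L.MM E K0 r
    rw [T.base]
    exact IntermediateField.subset_adjoin _ _ (Or.inl ⟨x, rfl⟩)
  rw [hS.MM_eq] at hz
  refine map_adjoin20 (fun z => e z) (ρ : UU k Kc →+* U) T.const _ ?_ hz
  rintro w (hw | hw)
  · exact hL w hw
  · rw [Set.mem_singleton_iff.1 hw]
    obtain ⟨d, -, hd⟩ := T.root
    change ρ (toU (k := k) (K := Kc) y) ∈ L.MM E K0 r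
    rw [← hd]
    exact mul_mem ((L.MM E K0 r).algebraMap_mem d)
      (IntermediateField.subset_adjoin _ _ (Or.inr rfl))

/-- the curve is not rational -/
theorem Tr.nonrat {n m : ℕ} {c : k} {g x z₀ h : K0} {f : k[X]} {S : Finset k}
    (T : Tr (K0 := K0) s ρ e Φ y r) (hS : CycE n c g x z₀ f S y) (G : Geo k K0 E U m h r)
    (z : LT.MM k Kc) : IntermediateField.adjoin (kbar k Kc) {z} ≠ ⊤ := by
  intro hz
  refine G.nonrat ⟨ρ z.1, T.mem_MM' hS z.2⟩ ?_
  rw [eq_top_iff]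
  intro w _
  let Z : IntermediateField E U := (IntermediateField.adjoin E
    {(⟨ρ z.1, T.mem_MM' hS z.2⟩ : L.MM E K0 r)}).map (L.MM E K0 r).val
  have h1 : (⟨ρ.symm w.1, T.mem_MM w.2⟩ : LT.MM k Kc) ∈
      IntermediateField.adjoin (kbar k Kc) {z} := by
    rw [hz]
    trivial
  have h2 : ((ρ : UU k Kc →+* U).comp (algebraMap (LT.MM k Kc) (UU k Kc)))
      (⟨ρ.symm w.1, T.mem_MM w.2⟩ : LT.MM k Kc) ∈ Z := by
    refine map_adjoin20 (fun z => e z) _ (fun a => T.const a) Z ?_ h1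
    intro x hx
    rw [Set.mem_singleton_iff.1 hx]
    exact ⟨⟨ρ z.1, T.mem_MM' hS z.2⟩, IntermediateField.mem_adjoin_simple_self E _, rfl⟩
  have h3 : ((ρ : UU k Kc →+* U).comp (algebraMap (LT.MM k Kc) (UU k Kc)))
      (⟨ρ.symm w.1, T.mem_MM w.2⟩ : LT.MM k Kc) = w.1 := ρ.apply_symm_apply w.1
  rw [h3] at h2
  obtain ⟨w', hw', hw''⟩ := h2
  have h4 : w' = w := Subtype.ext hw''
  rw [← h4]
  exact hw'

/-- `U` is algebraic over `L0` -/
theorem algU20 {m : ℕ} {h : K0} (G : Geo k K0 E U m h r) :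
    Algebra.IsAlgebraic (L0 E K0 (U := U)) U := by
  have h0 := G.normal
  have h1 : Algebra.IsAlgebraic K0 U := inferInstance
  refine ⟨fun z => ?_⟩
  exact isAlgebraic_of_range_le (A := K0)
    (fun a => ⟨⟨_, IntermediateField.subset_adjoin _ _ ⟨a, rfl⟩⟩, rfl⟩) (h1.isAlgebraic z)

theorem inDecomp20 {W : ValuationSubring E} {γ : E ≃ₐ[k] E} (h : InDecomp W γ) :
    InDecomp (W.comap (e : kbar k Kc →+* E)) ((e.trans γ).trans e.symm) := by
  intro z
  change e (e.symm (γ (e z))) ∈ W ↔ e z ∈ W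
  rw [e.apply_symm_apply]
  exact h (e z)

theorem inInert20 {W : ValuationSubring E} {γ : E ≃ₐ[k] E} (h : InInert W γ) :
    InInert (W.comap (e : kbar k Kc →+* E)) ((e.trans γ).trans e.symm) := by
  refine ⟨inDecomp20 h.1, fun z hz => ?_⟩
  rw [comap_nonunits20]
  have h1 := h.2 (e z) hz
  have h2 : (e : kbar k Kc →+* E) (((e.trans γ).trans e.symm) z - z) = γ (e z) - e z := by
    rw [map_sub]
    change e (e.symm (γ (e z))) - e z = _
    rw [e.apply_symm_apply]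
  rw [h2]
  exact h1

/-- If the value of `r` is not the value of an element of `L0` then the place is a branch place. -/
theorem bpl20 {ℓ : ℕ} (hℓ : ℓ ≠ 0) {h : K0} (hh : h ≠ 0) [CharZero E] (G : Geo k K0 E U ℓ h r)
    {b : Place E (L0 E K0 (U := U))} {P : ValuationSubring U} (hbP : OverU b P)
    (hne : ∀ u ∈ L0 E K0 (U := U), P.valuation r ≠ P.valuation u) : BPl ℓ h b := by
  rintro ⟨q, hq⟩
  have hh0 : (inL0 h : L0 E K0 (U := U)) ≠ 0 := by
    intro h0
    have h1 : algebraMap K0 U h = 0 := congrArg Subtype.val h0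
    exact hh ((map_eq_zero _).1 h1)
  obtain ⟨π, hπ0, hπ⟩ := TWU.exists_unif G.ff b
  have hu0 : π ^ q ≠ 0 := zpow_ne_zero _ hπ0
  have h1 : ord b.ring ((π ^ q) ^ ℓ) = ord b.ring (inL0 h) := by
    rw [TWU.ord_pow' G.ff b hu0, TWU.ord_zpow' G.ff b hπ0, hπ, hq, mul_one]
  refine hne (π ^ q : L0 E K0 (U := U)) (π ^ q).2 ?_
  have key : ∀ a a' : L0 E K0 (U := U), a ≠ 0 → a' ≠ 0 → ord b.ring a = ord b.ring a' →
      P.valuation (a : U) ≤ P.valuation (a' : U) := by
    intro a a' ha ha' haa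
    have h2 : a / a' ∈ b.ring := by
      rw [TWU.mem_iff_ord G.ff b (div_ne_zero ha ha'), div_eq_mul_inv,
        TWU.ord_mul' G.ff b ha (inv_ne_zero ha'), TWU.ord_inv' G.ff b ha', haa]
      omega
    have h3 := (hbP _).1 h2
    have h4 : ((a / a' : L0 E K0 (U := U)) : U) = a / a' := rfl
    rw [h4, ← ValuationSubring.valuation_le_one_iff, map_div₀, div_le_one₀] at h3
    · exact h3
    · refine zero_lt_iff.2 ((Valuation.ne_zero_iff _).2 ?_)
      intro h0
      exact ha' (Subtype.ext h0)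
  have h2 : P.valuation (r ^ ℓ) = P.valuation (((π ^ q : L0 E K0 (U := U)) : U) ^ ℓ) := by
    have h3 : (r ^ ℓ : U) = ((inL0 h : L0 E K0 (U := U)) : U) := G.rpow
    rw [h3]
    exact le_antisymm (key _ ((π ^ q) ^ ℓ) hh0 (pow_ne_zero _ hu0) h1.symm)
      (key ((π ^ q) ^ ℓ) _ (pow_ne_zero _ hu0) hh0 h1)
  rw [map_pow, map_pow] at h2
  exact (pow_left_inj₀ zero_le zero_le hℓ).1 h2

end tr

end Pool.Agent.FFL20
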