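import Pool.Agent.Helper20.FF.LA

/-!
# Project FF, block LOC: the local properties of the action of a section (continued)
-/

set_option autoImplicit false
set_option linter.unusedSectionVars false

namespace Pool.Agent.FFL20

open VC IntermediateField Polynomial Pool.Agent.SC Pool.Agent.Helper91.Sect Pool.Agent
open Pool.Agent.L (L0)
open Pool.Agent.LN (Geo Act GoodCurve)
open Pool.Agent.LT (UU toU actU GoodRed rootsB goodElts goodRed_of_goodElts)
open Pool.Agent.GC (LL CycE GoodPoly)
open Pool.Agent.M (Moves OverPl inL0)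
open Pool.Agent.ML (BPl)
open Pool.Agent.FFS (OverU LocA HypC GoodW)

/-- A finite extension of `F(t)` is finitely generated if `F` is. -/
theorem fg_of_finite20 {F k : Type*} [Field F] [Field k] [Algebra F k]
    (hF : ∃ S : Finset F, Subfield.closure (S : Set F) = ⊤) {t : k}
    (hfin : FiniteDimensional (IntermediateField.adjoin F {t}) k) :
    ∃ S : Finset k, Subfield.closure (S : Set k) = ⊤ := by
  classical
  obtain ⟨S, hS⟩ := hF
  let b := Module.finBasis (IntermediateField.adjoin F {t}) k
  let S' : Finset k := S.image (algebraMap F k) ∪ {t} ∪ Finset.univ.image b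
  refine ⟨S', ?_⟩
  have h1 : ∀ a : F, algebraMap F k a ∈ Subfield.closure (S' : Set k) := by
    have h2 : (⊤ : Subfield F) ≤ (Subfield.closure (S' : Set k)).comap (algebraMap F k) := by
      rw [← hS, Subfield.closure_le]
      intro a ha
      refine Subfield.subset_closure ?_
      exact Finset.mem_coe.2 (Finset.mem_union_left _ (Finset.mem_union_left _
        (Finset.mem_image_of_mem _ ha)))
    exact fun a => h2 (Subfield.mem_top a)
  have h2 : ∀ a ∈ IntermediateField.adjoin F {t}, a ∈ Subfield.closure (S' : Set k) := by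
    have h3 : (IntermediateField.adjoin F {t}).toSubfield ≤ Subfield.closure (S' : Set k) := by
      rw [IntermediateField.adjoin_toSubfield, Subfield.closure_le]
      rintro _ (⟨a, rfl⟩ | ha)
      · exact h1 a
      · rw [Set.mem_singleton_iff.1 ha]
        refine Subfield.subset_closure ?_
        exact Finset.mem_coe.2 (Finset.mem_union_left _ (Finset.mem_union_right _
          (Finset.mem_singleton_self t)))
    exact fun a ha => h3 ha
  rw [eq_top_iff]
  intro z _
  rw [← b.sum_repr z]
  refine sum_mem fun i _ => ?_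
  rw [Algebra.smul_def]
  refine mul_mem (h2 _ (b.repr z i).2) (Subfield.subset_closure ?_)
  exact Finset.mem_coe.2 (Finset.mem_union_right _ (Finset.mem_image_of_mem _ (Finset.mem_univ i)))

/-- The local properties. -/
theorem locA20 {F k K0 Kc E U : Type} [Field F] [CharZero F] [Field k] [CharZero k] [DecidableEq k]
    [Algebra F k] [Field K0] [Algebra k K0] [Field Kc]
    [Algebra k Kc] [Algebra K0 Kc] [IsScalarTower k K0 Kc]
    [Field E] [Field U] [Algebra k E] [Algebra E U] [Algebra K0 U] [Algebra k U]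
    [IsScalarTower k E U] [IsScalarTower k K0 U]
    {s : GaloisSection k Kc} {ρ : UU k Kc ≃+* U} {e : kbar k Kc ≃ₐ[k] E}
    {Φ : (E ≃ₐ[k] E) →* (U ≃+* U)} {y : Kc} {r : U}
    (hF : ∃ S : Finset F, Subfield.closure (S : Set F) = ⊤) {t : k}
    (hfin : FiniteDimensional (IntermediateField.adjoin F {t}) k) {ℓ : ℕ} (hℓ : ℓ.Prime)
    {c : k} {h x z₀ : K0} {f : k[X]} {S : Finset k}
    (T : Tr (K0 := K0) s ρ e Φ y r) (hS : CycE ℓ c h x z₀ f S y) (G : Geo k K0 E U ℓ h r)
    {S' : Set k} (hS' : ∀ a ∈ goodElts f 1 ∪ S, a ∈ S') {B : Set E} {W₀ : ValuationSubring E}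
    (H : HypC F S' B ℓ c W₀) : LocA F K0 ℓ h S' c W₀ Φ := by
  have hE0 : CharZero E := charZero_of_injective_algebraMap (algebraMap k E).injective
  have hk : ∃ S : Finset k, Subfield.closure (S : Set k) = ⊤ := fg_of_finite20 hF hfin
  let iFK : Algebra F Kc := ((algebraMap k Kc).comp (algebraMap F k)).toAlgebra
  have sFK : IsScalarTower F k Kc := IsScalarTower.of_algebraMap_eq fun _ => rfl
  have hmem : ∀ (W : ValuationSubring E) (a : k), algebraMap k E a ∈ W →
      algebraMap k (kbar k Kc) a ∈ W.comap (e : kbar k Kc →+* E) := by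
    intro W a ha
    change e (algebraMap k (kbar k Kc) a) ∈ W
    rw [e.commutes]
    exact ha
  have hnon : ∀ (W : ValuationSubring E) (a : k),
      algebraMap k (kbar k Kc) a ∈ (W.comap (e : kbar k Kc →+* E)).nonunits ↔
        algebraMap k E a ∈ W.nonunits := by
    intro W a
    rw [comap_nonunits20]
    change e (algebraMap k (kbar k Kc) a) ∈ W.nonunits ↔ _
    rw [e.commutes]
  have hk₁ : ∀ W : ValuationSubring E, GoodW F S' W → ∀ a : F,
      algebraMap F (kbar k Kc) a ∈ W.comap (e : kbar k Kc →+* E) := by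
    intro W hW a
    rw [IsScalarTower.algebraMap_apply F k (kbar k Kc)]
    exact hmem W _ (hW.const a)
  have hred : ∀ W : ValuationSubring E, GoodW F S' W →
      GoodRed (W.comap (e : kbar k Kc →+* E)) f := by
    intro W hW
    refine (goodRed_of_goodElts (c := 1) (by have := hS.deg; omega) hS.sep one_ne_zero
      (fun a ha => ?_)).1
    exact hmem W a (hW.mem a (hS' a (Finset.mem_union_left _ ha)))
  have hSW : ∀ W : ValuationSubring E, GoodW F S' W → ∀ a ∈ S,
      algebraMap k (kbar k Kc) a ∈ W.comap (e : kbar k Kc →+* E) := fun W hW a ha =>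
    hmem W a (hW.mem a (hS' a (Finset.mem_union_right _ ha)))
  have hsurj : Function.Surjective (e : kbar k Kc →+* E) := e.surjective
  have hh0 : (inL0 h : L0 E K0 (U := U)) ≠ 0 := by
    intro h0
    have h1 : algebraMap K0 U h = 0 := congrArg Subtype.val h0
    exact hS.g_ne ((map_eq_zero _).1 h1)
  have hr0 : r ≠ 0 := by
    rintro rfl
    refine G.rnot 1 one_pos hℓ.one_lt ?_
    rw [pow_one]
    exact zero_mem _
  refine ⟨?_, ?_⟩
  · have hdisc : ∀ z : k, z ≠ 0 → ∃ i : ℤ,
        (W₀.comap (e : kbar k Kc →+* E)).valuation (algebraMap k (kbar k Kc) z) =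
          (W₀.comap (e : kbar k Kc →+* E)).valuation (algebraMap k (kbar k Kc) c) ^ i := by
      intro z hz
      obtain ⟨i, hi⟩ := H.gen z hz
      refine ⟨i, ?_⟩
      have hz' : algebraMap k (kbar k Kc) z ≠ 0 := (_root_.map_ne_zero _).2 hz
      have hc' : algebraMap k (kbar k Kc) c ≠ 0 := (_root_.map_ne_zero _).2 H.c0
      rw [← map_zpow₀, comap_eq_iff20 _ _ hz' (zpow_ne_zero _ hc'), map_zpow₀, map_zpow₀]
      change W₀.valuation (e (algebraMap k (kbar k Kc) z)) =
        W₀.valuation (e (algebraMap k (kbar k Kc) c)) ^ i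
      rw [e.commutes, e.commutes]
      exact hi
    obtain ⟨P, hPK, hP1, hPD, σ, hσL, hσM, hPσ⟩ := place_of_badG hS s hk (T.nonrat hS G) hF t hfin
      (W := W₀.comap (e : kbar k Kc →+* E)) (comap_ne_top20 hsurj H.good.ne) (hk₁ W₀ H.good)
      (hred W₀ H.good) (hSW W₀ H.good) (ϖ := c) (c₁ := 1) (j := 1) ((hnon W₀ c).2 H.zero) H.c0
      hdisc (by rw [pow_one, mul_one]) (fun hd => hℓ.one_lt.ne' (Nat.dvd_one.1 hd))
      (by rw [map_one]; exact one_mem _)
      (by
        rw [map_one, ValuationSubring.mem_nonunits_iff, map_one]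
        exact lt_irrefl _)
    let P' : ValuationSubring U := P.comap (ρ.symm : U →+* UU k Kc)
    have hP'E : ∀ a : E, algebraMap E U a ∈ P' := by
      intro a
      change ρ.symm (algebraMap E U a) ∈ P
      rw [T.const']
      exact hPK _
    have hP'1 : P' ≠ ⊤ := comap_ne_top20 ρ.symm.surjective hP1
    have halg := algU20 G
    let b : Place E (L0 E K0 (U := U)) :=
      ⟨P'.comap (algebraMap (L0 E K0 (U := U)) U), fun a => hP'E a, fun htop => hP'1
        (eq_top_of_forall_mem (M := L0 E K0 (U := U)) (fun m => by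
          have h1 : m ∈ P'.comap (algebraMap (L0 E K0 (U := U)) U) := by
            rw [htop]
            trivial
          exact h1))⟩
    have hbP : OverU b P' := fun z => Iff.rfl
    refine ⟨b, P', bpl20 hℓ.ne_zero hS.g_ne G hbP (fun u hu heq => ?_), hbP, fun γ hγ z => ?_⟩
    · have hu0 : u ≠ 0 := by
        rintro rfl
        rw [map_zero, Valuation.zero_iff] at heq
        exact hr0 heq
      rw [comap_eq_iff20 _ _ hr0 hu0] at heq
      obtain ⟨d, hd0, hd⟩ := T.root'
      have h1 : P.valuation (algebraMap (kbar k Kc) (UU k Kc) d) = 1 :=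
        val_one_of_mem (hPK d) (by rw [← map_inv₀]; exact hPK _) ((_root_.map_ne_zero _).2 hd0)
      have h2 : P.valuation (ρ.symm r) = P.valuation (ρ.symm u) := heq
      rw [hd, map_mul, h1, one_mul] at h2
      exact val_ne_of_fixed hS hPK hP1 hσL hσM hPσ (T.mem_LL hu) h2
    · obtain ⟨z₁, rfl⟩ := ρ.surjective z
      change ρ.symm (Φ γ (ρ z₁)) ∈ P ↔ ρ.symm (ρ z₁) ∈ P
      rw [T.act, ρ.symm_apply_apply, ρ.symm_apply_apply]
      exact hPD _ (inDecomp20 hγ) z₁
  · intro W hW hcW b P hb hbP γ hγ z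
    have hPE : ∀ a : E, algebraMap E U a ∈ P := fun a =>
      (hbP (algebraMap E _ a)).1 (b.algebraMap_mem a)
    have hPt : P ≠ ⊤ := by
      intro h1
      apply b.ne_top
      rw [eq_top_iff]
      intro z _
      rw [hbP z, h1]
      trivial
    let Pc : ValuationSubring (UU k Kc) := P.comap (ρ : UU k Kc →+* U)
    have hPc : ∀ a : kbar k Kc, algebraMap (kbar k Kc) (UU k Kc) a ∈ Pc := by
      intro a
      change ρ (algebraMap (kbar k Kc) (UU k Kc) a) ∈ P
      rw [T.const]
      exact hPE _
    have hPc1 : Pc ≠ ⊤ := comap_ne_top20 ρ.surjective hPt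
    have hval : Pc.valuation (toU (k := k) (K := Kc) (algebraMap K0 Kc h)) ≠ 1 := by
      intro h1
      have h2 : toU (k := k) (K := Kc) (algebraMap K0 Kc h) ≠ 0 := by
        rw [Ne, map_eq_zero, map_eq_zero]
        exact hS.g_ne
      rw [← map_one Pc.valuation, comap_eq_iff20 _ _ h2 one_ne_zero] at h1
      have h3 : P.valuation (algebraMap K0 U h) = 1 := by
        have h4 : (ρ : UU k Kc →+* U) (toU (k := k) (K := Kc) (algebraMap K0 Kc h)) =
            algebraMap K0 U h := T.base h
        rw [h4, map_one, map_one] at h1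
        exact h1
      apply hb
      have h5 : (inL0 h : L0 E K0 (U := U)) ∈ b.ring := by
        rw [hbP]
        exact (P.valuation_le_one_iff _).1 h3.le
      have h6 : (inL0 h : L0 E K0 (U := U))⁻¹ ∈ b.ring := by
        rw [hbP]
        refine (P.valuation_le_one_iff _).1 ?_
        change P.valuation (algebraMap K0 U h)⁻¹ ≤ 1
        rw [map_inv₀, h3, inv_one]
      rw [TWU.mem_iff_ord G.ff b hh0] at h5
      rw [TWU.mem_iff_ord G.ff b (inv_ne_zero hh0), TWU.ord_inv' G.ff b hh0] at h6
      have h7 : ord b.ring (inL0 h : L0 E K0 (U := U)) = 0 := by omega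
      rw [h7]
      exact dvd_zero _
    have h1 := hS.fixes_of_good s hF t hfin (W := W.comap (e : kbar k Kc →+* E))
      (comap_ne_top20 hsurj hW.ne) (hk₁ W hW) (hred W hW) (hSW W hW) (hmem W c (H.reg W hW))
      (fun h0 => hcW ((hnon W c).1 h0)) hPc hPc1 (above_of_val_ne hS hPc hval) (inInert20 hγ)
      (ρ.symm z)
    have h2 := T.act γ (ρ.symm z)
    rw [ρ.apply_symm_apply] at h2
    have h3 : actU s ((e.trans γ).trans e.symm) (ρ.symm z) ∈ Pc ↔ Φ γ z ∈ P := by
      rw [h2]
      exact Iff.rfl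
    have h4 : ρ.symm z ∈ Pc ↔ z ∈ P := by
      change ρ (ρ.symm z) ∈ P ↔ _
      rw [ρ.apply_symm_apply]
    rw [← h3, ← h4]
    exact h1

end Pool.Agent.FFL20
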