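import Pool.Agent.Helper20.PL.TRG2
import Pool.Agent.Helper13.FF.Defs

/-!
# Project FF, block LOC: the transfer of the tower, for fields of characteristic zero
-/

set_option autoImplicit false
set_option linter.unusedSectionVars false

namespace Pool.Agent.FFL20

open VC IntermediateField Pool.Agent.SC Pool.Agent.Helper91.Sect
open Pool.Agent.L (L0 MM)
open Pool.Agent.LN (Geo Act GoodCurve)
open Pool.Agent.M (Moves OverPl inL0)
open Pool.Agent.PRL (TT RtM)
open Pool.Agent.PRG (TG KBX)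
open Pool.Agent.FFS (OverU AgrI)

noncomputable section

section main

variable {k K0 E U : Type} [Field k] [CharZero k] [Field K0] [Field E] [Field U]
  [Algebra k K0] [Algebra k E] [Algebra E U] [Algebra K0 U] [Algebra k U] [IsScalarTower k E U]
  [IsScalarTower k K0 U] {n : ℕ} {h : K0} {r : U} (hn : 2 ≤ n) (G : Geo k K0 E U n h r)
  {K : Type} [Field K] [Algebra k K] [Algebra K0 K] [IsScalarTower k K0 K] {y : K}
  {c : k} (hy : y ^ n = algebraMap k K c * algebraMap K0 K h)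
  {j : U →+* AlgebraicClosure K}
  (hj1 : ∀ x : K0, j (algebraMap K0 U x) = algebraMap K (AlgebraicClosure K) (algebraMap K0 K x))
  (hj2 : ∀ z : E, IsAlgebraic k (j (algebraMap E U z)))
  (hj3 : ∀ z : AlgebraicClosure K, IsAlgebraic k z → ∃ z' : E, j (algebraMap E U z') = z)

include hn G hy hj1 hj3 in
/-- `y` is `r` times a constant -/
theorem j_r20 : ∃ d : E, j (algebraMap E U d * r) = algebraMap K (AlgebraicClosure K) y := by
  have hr0 : r ≠ 0 := by
    rintro rfl
    refine G.rnot 1 one_pos (by omega) ?_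
    rw [pow_one]
    exact zero_mem _
  have hjr : j r ≠ 0 := (map_ne_zero j).2 hr0
  have h1 : (algebraMap K (AlgebraicClosure K) y / j r) ^ n =
      algebraMap K (AlgebraicClosure K) (algebraMap k K c) := by
    rw [div_pow, ← map_pow, ← map_pow, hy, G.rpow, hj1, map_mul]
    refine mul_div_cancel_right₀ _ ?_
    rw [← hj1, ← G.rpow, map_pow]
    exact pow_ne_zero _ hjr
  have h2 : IsAlgebraic k (algebraMap K (AlgebraicClosure K) y / j r) := by
    refine IsAlgebraic.of_pow (n := n) (by omega) ?_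
    rw [h1, ← IsScalarTower.algebraMap_apply k K (AlgebraicClosure K)]
    exact isAlgebraic_algebraMap c
  obtain ⟨d, hd⟩ := hj3 _ h2
  refine ⟨d, ?_⟩
  rw [map_mul, hd, div_mul_cancel₀ _ hjr]

include hj2 hj3 in
/-- valuation rings of `U` extend -/
theorem exists_ext20 (W : Place E U) : ∃ V : ValuationSubring (AlgebraicClosure K),
    (∀ u : U, j u ∈ V ↔ u ∈ W.ring) ∧ ∀ z : AlgebraicClosure K, IsAlgebraic k z → z ∈ V := by
  let _ : Algebra U (AlgebraicClosure K) := j.toAlgebra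
  let _ : Algebra E (AlgebraicClosure K) := (j.comp (algebraMap E U)).toAlgebra
  have hst : IsScalarTower E U (AlgebraicClosure K) := IsScalarTower.of_algebraMap_eq fun _ => rfl
  obtain ⟨V, hV⟩ := _root_.SC.exists_place_over (K := E) (M := U) (N := AlgebraicClosure K) W
  refine ⟨V.ring, hV, fun z hz => ?_⟩
  obtain ⟨z', rfl⟩ := hj3 z hz
  exact V.algebraMap_mem z'

theorem TT_succ_mem20 {m : ℕ} {w : U} (hw : w ^ n ∈ TT E K0 r n m) : w ∈ TT E K0 r n (m + 1) :=
  IntermediateField.subset_adjoin _ _ (Or.inr hw)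

theorem TT_le_succ20 (m : ℕ) : TT E K0 r n m ≤ TT E K0 r n (m + 1) := fun _ hu =>
  IntermediateField.subset_adjoin _ _ (Or.inl hu)

include hn G hj2 hj3 in
/-- one step of the tower: the roots -/
theorem rt_step20 {N : IntermediateField E U} {M : Subfield (AlgebraicClosure K)}
    (hMN : ∀ z ∈ M, ∃ u ∈ N, j u = z) {w : AlgebraicClosure K} (hw : RtM k n M w) :
    ∃ u : U, u ^ n ∈ N ∧ j u = w := by
  have hn0 : 0 < n := by omega
  obtain ⟨u, hu, hP⟩ := hw
  obtain ⟨u0, hu0, hju⟩ := hMN u u.2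
  by_cases hw0 : w = 0
  · exact ⟨0, by rw [zero_pow hn0.ne']; exact zero_mem _, by rw [map_zero, hw0]⟩
  have hu00 : u0 ≠ 0 := by
    rintro rfl
    rw [map_zero] at hju
    rw [← hju] at hu
    exact pow_ne_zero n hw0 hu.symm
  obtain ⟨w0, hw0'⟩ := G.cover.root u0 n hn0 (by
    intro W hW
    by_cases hWt : W = ⊤
    · refine ⟨1, ?_⟩
      rw [one_pow, map_one]
      refine le_antisymm ?_ ?_
      · rw [ValuationSubring.valuation_le_one_iff, hWt]
        trivial
      · have h1 : W.valuation u0⁻¹ ≤ 1 := by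
          rw [ValuationSubring.valuation_le_one_iff, hWt]
          trivial
        rw [map_inv₀] at h1
        exact (inv_le_one₀ (zero_lt_iff.2 ((Valuation.ne_zero_iff _).2 hu00))).1 h1
    obtain ⟨V, hV1, hV2⟩ := exists_ext20 (k := k) hj2 hj3 (⟨W, hW, hWt⟩ : Place E U)
    obtain ⟨z, hz⟩ := hP (V.comap M.subtype) fun z hz => hV2 _ hz
    obtain ⟨z0, hz0, hjz⟩ := hMN z z.2
    refine ⟨z0, ?_⟩
    have hu1 : u ≠ 0 := by
      rintro rfl
      exact pow_ne_zero n hw0 hu.symm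
    have hz1 : z ≠ 0 := by
      rintro rfl
      rw [map_zero, zero_pow hn0.ne'] at hz
      exact hu1 ((map_eq_zero _).1 hz)
    have hz00 : z0 ≠ 0 := by
      rintro rfl
      rw [map_zero] at hjz
      exact hz1 (Subtype.ext hjz.symm)
    -- quotients are units
    have key : ∀ a b : M, ∀ a0 b0 : U, j a0 = a → j b0 = b → b ≠ 0 →
        b0 ≠ 0 →
        (V.comap M.subtype).valuation a ≤ (V.comap M.subtype).valuation b →
        W.valuation a0 ≤ W.valuation b0 := by
      intro a b a0 b0 ha hb hb0 hb00 hab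
      have h1 : a / b ∈ V.comap M.subtype := by
        rw [← ValuationSubring.valuation_le_one_iff, map_div₀]
        exact div_le_one_of_le₀ hab zero_le
      rw [ValuationSubring.mem_comap] at h1
      have h2 : M.subtype (a / b) = j (a0 / b0) := by
        rw [map_div₀, map_div₀, ha, hb]
        rfl
      rw [h2, hV1] at h1
      change a0 / b0 ∈ W at h1
      rw [← ValuationSubring.valuation_le_one_iff, map_div₀,
        div_le_one₀ (zero_lt_iff.2 ((Valuation.ne_zero_iff _).2 hb00))] at h1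
      exact h1
    have hjzm : j (z0 ^ n) = ((z ^ n : M) : AlgebraicClosure K) := by
      rw [map_pow, hjz]
      rfl
    refine le_antisymm ?_ ?_
    · exact key u (z ^ n) u0 (z0 ^ n) hju hjzm (pow_ne_zero n hz1) (pow_ne_zero n hz00)
        (by rw [map_pow]; exact hz.le)
    · exact key (z ^ n) u (z0 ^ n) u0 hjzm hju hu1 hu00 (by rw [map_pow]; exact hz.ge))
  -- the quotient is a root of unity
  have hw00 : w0 ≠ 0 := by
    rintro rfl
    rw [zero_pow hn0.ne'] at hw0'
    exact hu00 hw0'.symm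
  have hj0 : j w0 ≠ 0 := (map_ne_zero j).2 hw00
  have h1 : (w / j w0) ^ n = 1 := by
    rw [div_pow, ← map_pow, hw0', hju, hu]
    exact div_self (pow_ne_zero n hw0)
  have h2 : IsAlgebraic k (w / j w0) := by
    refine IsAlgebraic.of_pow hn0 ?_
    rw [h1]
    exact isAlgebraic_one
  obtain ⟨ζ, hζ⟩ := hj3 _ h2
  refine ⟨algebraMap E U ζ * w0, ?_, ?_⟩
  · rw [mul_pow, hw0', ← map_pow]
    exact mul_mem (N.algebraMap_mem _) hu0
  · rw [map_mul, hζ, div_mul_cancel₀ _ hj0]

include hn G hy hj1 hj3 in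
/-- the field of the cover is in the image of `M` -/
theorem kbx_sub20 (z : AlgebraicClosure K) (hz : z ∈ KBX k K0 y) :
    ∃ u ∈ MM E K0 r, j u = z := by
  have h1 : KBX k K0 y ≤ (MM E K0 r).toSubfield.map j := by
    rw [KBX, Subfield.closure_le]
    rintro z ((hz | ⟨x, rfl⟩) | hz)
    · obtain ⟨z', rfl⟩ := hj3 z hz
      exact ⟨_, (MM E K0 r).algebraMap_mem z', rfl⟩
    · refine ⟨algebraMap K0 U x, ?_, ?_⟩
      · exact IntermediateField.subset_adjoin _ _ (Or.inl ⟨x, rfl⟩)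
      · exact hj1 x
    · obtain ⟨d, hd⟩ := j_r20 hn G hy hj1 hj3
      refine ⟨algebraMap E U d * r, ?_, ?_⟩
      · exact mul_mem ((MM E K0 r).algebraMap_mem d)
          (IntermediateField.subset_adjoin _ _ (Or.inr rfl))
      · rw [Set.mem_singleton_iff] at hz
        rw [hz]; exact hd
  obtain ⟨u, hu, hu'⟩ := h1 hz
  exact ⟨u, hu, hu'⟩

include hn G hy hj1 hj2 hj3 in
/-- the tower is in the image -/
theorem tg_sub20 (m : ℕ) : ∀ z ∈ TG k K0 y n m, ∃ u ∈ TT E K0 r n m, j u = z := by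
  induction m with
  | zero => exact kbx_sub20 hn G hy hj1 hj3
  | succ m ih =>
    have h1 : TG k K0 y n (m + 1) ≤ (TT E K0 r n (m + 1)).toSubfield.map j := by
      rw [TG, Subfield.closure_le]
      rintro z (hz | hz)
      · obtain ⟨u, hu, hu'⟩ := ih z hz
        exact ⟨u, TT_le_succ20 m hu, hu'⟩
      · obtain ⟨u, hu, hu'⟩ := rt_step20 hn G hj2 hj3 ih hz
        exact ⟨u, TT_succ_mem20 hu, hu'⟩
    intro z hz
    obtain ⟨u, hu, hu'⟩ := h1 hz
    exact ⟨u, hu, hu'⟩

include hn G hy hj1 hj2 hj3 in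
/-- **Agreement** on the tower from a place of `U`. -/
theorem agrI20 {Φ : (E ≃ₐ[k] E) →* (U ≃+* U)} {s : GaloisSection k K} (hj4 : ∀ u, j u ∈ Kur k K)
    (hj5 : ∀ g : Gk k K, ∃ σ : E ≃ₐ[k] E, ∀ (u : U) (hu : j u ∈ Kur k K),
      (s.toHom g ⟨j u, hu⟩ : AlgebraicClosure K) = j (Φ σ u))
    {b : Place E (L0 E K0 (U := U))} {P : ValuationSubring U} (hbP : OverU b P)
    (hst : ∀ m : ℕ, ∀ z ∈ TT E K0 r n m (U := U), ∀ g : E ≃ₐ[k] E, Φ g z ∈ P ↔ z ∈ P)
    {P₀ : ValuationSubring K0} (hP₀ : ∀ x : K0, x ∈ P₀ ↔ inL0 x ∈ b.ring) : AgrI s y n P₀ := by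
  have hPE : ∀ e : E, algebraMap E U e ∈ P := fun e => (hbP (algebraMap E _ e)).1 (b.algebraMap_mem e)
  have hPt : P ≠ ⊤ := by
    intro h1
    apply b.ne_top
    rw [eq_top_iff]
    intro z _
    rw [hbP z, h1]
    trivial
  obtain ⟨V, hV1, hV2⟩ := exists_ext20 (k := k) hj2 hj3 (⟨P, hPE, hPt⟩ : Place E U)
  refine ⟨V, hV2, fun x => ?_, fun m w hw => ?_⟩
  · rw [← hj1, hV1, hP₀ x]
    exact hbP (inL0 x)
  · obtain ⟨u, hu, rfl⟩ := tg_sub20 hn G hy hj1 hj2 hj3 m w hw
    refine ⟨hj4 u, fun g => ?_⟩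
    obtain ⟨σ, hσ⟩ := hj5 g
    rw [hσ, hV1, hV1]
    exact (hst m u hu σ).symm

end main

end

end Pool.Agent.FFL20
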