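import Pool.Agent.Helper20.FF.LB
import Pool.Agent.Helper20.FF.Tow
import Pool.Agent.Helper37.TWU.F
import Pool.Agent.Helper13.GC.C4

/-!
# Project FF, block LOC
-/

set_option autoImplicit false

namespace Pool.Agent.FFS

open VC IntermediateField Polynomial Pool.Agent.SC Pool.Agent.Helper91.Sect Pool.Agent
open Pool.Agent.GC (CycE Coord)
open Pool.Agent.LT (goodElts)
open Pool.Agent.FFL20

/-- BLOCK LOC. -/
theorem stmtLOC : StmtLOC := by
  classical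
  intro k₀ K₀ _ _ _ _ hK₀ ℓ hℓ h₀ hh₀
  obtain ⟨x, z₀, f, S, hx, hgen, hdeg, hsep, hgood⟩ := GC.exists_goodPoly hK₀ hh₀
  have hc₀ : Coord h₀ x z₀ f S := ⟨hh₀, hK₀, hx, hgen, hdeg, hsep, hgood⟩
  refine ⟨goodElts f 1 ∪ S, ?_⟩
  intro F k K0 _ _ _ _ _ _ _ _ _ _ hF hfin hgenK htr hg
  have hk : CharZero k := charZero_of_injective_algebraMap (algebraMap k₀ k).injective
  have hF0 : CharZero F := (algebraMap F k).charZero
  have hco := TWU.coord_map (k := k) hc₀ hgenK (TWU.transc_map hK₀ hx htr)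
  obtain ⟨t, hfin⟩ := hfin
  obtain ⟨E, U, _, _, _, _, _, _, _, _, r, hcl, G, hsec⟩ :=
    trT k K0 ℓ (algebraMap K₀ K0 h₀) hℓ.two_le hg
  refine ⟨E, U, inferInstance, inferInstance, inferInstance, inferInstance, inferInstance,
    inferInstance, inferInstance, inferInstance, r, hcl, G, ?_⟩
  intro c W₀ S' B hS' H K _ _ _ _ y hy s
  have hy' : y ^ ℓ = algebraMap k K c⁻¹ * algebraMap K0 K (algebraMap K₀ K0 h₀) := by
    rw [← hy, ← mul_assoc, ← map_mul, inv_mul_cancel₀ H.c0, map_one, one_mul]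
  obtain ⟨Φ, hΦ, ⟨Kc, _, _, _, _, _, yc, sc, ρ, e, hyc, hgenc, T⟩, j, hj1, hj2, hj3, hj4, hj5⟩ :=
    hsec c⁻¹ (inv_ne_zero H.c0) K y hy' s
  refine ⟨Φ, hΦ, ?_, ?_⟩
  · have hS : CycE ℓ c (algebraMap K₀ K0 h₀) (algebraMap K₀ K0 x) (algebraMap K₀ K0 z₀)
        (f.map (algebraMap k₀ k)) (S.image (algebraMap k₀ k)) yc :=
      ⟨hℓ.pos, H.c0, hco.g_ne, hco.ff, hco.x_tr, hco.gen₀, hgenc,
        (by rw [hyc, ← mul_assoc, ← map_mul, mul_inv_cancel₀ H.c0, map_one, one_mul]), hco.deg,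
        hco.sep, hco.good⟩
    refine locA20 hF hfin hℓ T hS G ?_ H
    intro a ha
    rcases Finset.mem_union.1 ha with ha | ha
    · obtain ⟨a₀, ha₀, rfl⟩ := Finset.mem_image.1 (TWU.goodElts_map hdeg ha)
      exact hS' a₀ (Finset.mem_union_left _ ha₀)
    · obtain ⟨a₀, ha₀, rfl⟩ := Finset.mem_image.1 ha
      exact hS' a₀ (Finset.mem_union_right _ ha₀)
  · intro b P hbP hst P₀ hP₀
    exact agrI20 hℓ.two_le G hy' hj1 hj2 hj3 hj4 hj5 hbP hst hP₀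

end Pool.Agent.FFS
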